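import Pool.Agent.W5h37.VT.Vals
import Pool.Agent.TH910.Voj.NormMain

/-!
# Common divisors of a linear form and a polynomial, and the radical of a linear form
-/

set_option autoImplicit false

namespace Pool.Agent.W5h37.VT

open Finset Filter Pool.Agent.W5h37.Thin Pool.Agent.TH910.Voj Pool.Agent.H813R3.Voj

/-- the tuples for which a linear form has a large common divisor with a quantity which does not
depend on one of the coordinates -/
lemma div_form {m X : ℕ} {θ K T : ℝ} {A : Fin m → Finset ℕ} (hA : ∀ i, Spread X θ K (A i))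
    (hθ0 : 0 ≤ θ) (hK : 0 ≤ K) (hX : 1 ≤ X) (U E : ℕ) (hU : 1 ≤ U) (hE : 1 ≤ E) (hT0 : 0 ≤ T)
    (W : (Fin m → ℕ) → ℤ) (i : Fin m)
    (hWi : ∀ b x, W (Function.update b i x) = W (Function.update b i 0))
    (hT : ∀ a ∈ Fintype.piFinset A, W a ≠ 0 → ((W a).natAbs.divisors.card : ℝ) ≤ T)
    (u : Fin m → ℤ) (hi : u i ≠ 0) (huU : ∀ i, |u i| ≤ U)
    (B : Finset (Fin m → ℕ)) (hB : B ⊆ Fintype.piFinset A)
    (hbad : ∀ a ∈ B, W a ≠ 0 ∧
      ∃ D : ℕ, E ≤ D ∧ D ≤ 2 * (m * U) * X ∧ (D : ℤ) ∣ Thin.lin u a ∧ (D : ℤ) ∣ W a) :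
    (B.card : ℝ) ≤ K * (T * (3 * (m * U : ℕ) / (E : ℝ)) ^ θ) * ∏ j, ((A j).card : ℝ) := by
  classical
  have hm1 : 1 ≤ m := by
    have := i.2; omega
  set V : ℕ := m * U with hV
  have hV1 : 1 ≤ V := Nat.one_le_iff_ne_zero.2 (by positivity)
  have hUV : U ≤ V := Nat.le_mul_of_pos_left _ hm1
  have huV : |u i| ≤ V := (huU i).trans (by exact_mod_cast hUV)
  have hE0 : (0 : ℝ) < E := by exact_mod_cast hE
  have hA0 := (hA i).card_pos
  refine fibre_count A i B hB _ ?_
  intro b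
  set F := (A i).filter fun x => Function.update b i x ∈ B with hF
  rcases F.eq_empty_or_nonempty with h0 | ⟨x₀, hx₀⟩
  · rw [h0, Finset.card_empty, Nat.cast_zero]
    positivity
  set r : ℤ := Thin.lin u (Function.update b i 0) with hr
  have hlin : ∀ x : ℕ, Thin.lin u (Function.update b i x) = u i * x + r := by
    intro x
    rw [lin_split u _ i]
    simp [hr]
  set w : ℤ := W (Function.update b i 0) with hw
  have hx₀B := (Finset.mem_filter.1 hx₀).2
  have hw0 : w ≠ 0 := by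
    rw [hw, ← hWi b x₀]
    exact (hbad _ hx₀B).1
  set J : Finset ℕ := w.natAbs.divisors.filter fun D => E ≤ D ∧ D ≤ 2 * V * X with hJ
  have hsub : F ⊆ J.biUnion fun D => (A i).filter fun x : ℕ => (D : ℤ) ∣ u i * x + r := by
    intro x hx
    rw [hF, Finset.mem_filter] at hx
    obtain ⟨D, hD1, hD2, hD3, hD4⟩ := (hbad _ hx.2).2
    refine Finset.mem_biUnion.2 ⟨D, ?_, ?_⟩
    · rw [hJ, Finset.mem_filter, Nat.mem_divisors]
      refine ⟨⟨?_, Int.natAbs_ne_zero.2 hw0⟩, hD1, hD2⟩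
      rw [← Int.natCast_dvd, hw, ← hWi b x]
      exact hD4
    · rw [Finset.mem_filter]
      refine ⟨hx.1, ?_⟩
      rw [← hlin]
      exact hD3
  have h1 : (F.card : ℝ) ≤ ∑ D ∈ J,
      (((A i).filter fun x : ℕ => (D : ℤ) ∣ u i * x + r).card : ℝ) := by
    exact_mod_cast (Finset.card_le_card hsub).trans Finset.card_biUnion_le
  refine h1.trans ?_
  refine (Finset.sum_le_card_nsmul _ _ (K * (A i).card * (3 * V / (E : ℝ)) ^ θ) ?_).trans ?_
  · intro D hD
    rw [hJ, Finset.mem_filter] at hD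
    have hD1 : 1 ≤ D := hE.trans hD.2.1
    refine (mod_form (hA i) hθ0 hK hX (u i) r hi V D huV hD1 hD.2.2 _ (Finset.filter_subset _ _)
      (fun a ha => (Finset.mem_filter.1 ha).2)).trans ?_
    refine mul_le_mul_of_nonneg_left ?_ (mul_nonneg hK hA0.le)
    refine Real.rpow_le_rpow (div_nonneg (mul_nonneg (by norm_num) (Nat.cast_nonneg _))
      (Nat.cast_nonneg _)) ?_ hθ0
    have : (E : ℝ) ≤ D := by exact_mod_cast hD.2.1
    exact div_le_div_of_nonneg_left (mul_nonneg (by norm_num) (Nat.cast_nonneg _)) hE0 this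
  · rw [nsmul_eq_mul]
    have h2 : (J.card : ℝ) ≤ T := by
      have h3 : (J.card : ℝ) ≤ w.natAbs.divisors.card := by
        exact_mod_cast Finset.card_filter_le _ _
      refine h3.trans ?_
      have h4 := hT _ (hB hx₀B) (by rw [hWi]; exact hw0)
      rw [hWi] at h4
      exact h4
    calc (J.card : ℝ) * (K * (A i).card * (3 * V / (E : ℝ)) ^ θ) ≤
        T * (K * (A i).card * (3 * V / (E : ℝ)) ^ θ) :=
          mul_le_mul_of_nonneg_right h2 (mul_nonneg (mul_nonneg hK hA0.le) (Real.rpow_nonneg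
            (div_nonneg (mul_nonneg (by norm_num) (Nat.cast_nonneg _)) (Nat.cast_nonneg _)) _))
      _ = K * (T * (3 * V / (E : ℝ)) ^ θ) * (A i).card := by ring

open MvPolynomial

/-- the coefficients of a linear form -/
noncomputable def coef {m : ℕ} (F : MvPolynomial (Fin m) ℤ) (i : Fin m) : ℤ :=
  F.coeff (Finsupp.single i 1)

lemma linear_eq {m : ℕ} (F : MvPolynomial (Fin m) ℤ) (hF : F.IsHomogeneous 1) :
    F = ∑ i, C (coef F i) * X i := by
  classical
  ext d
  rw [MvPolynomial.coeff_sum]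
  by_cases hd : ∃ i, d = Finsupp.single i 1
  · obtain ⟨i, rfl⟩ := hd
    rw [Finset.sum_eq_single i]
    · rw [coeff_C_mul, coeff_X, if_pos rfl, mul_one]
      rfl
    · intro j _ hji
      rw [coeff_C_mul, coeff_X, mul_ite, mul_one, mul_zero, if_neg]
      intro h
      exact hji ((Finsupp.single_left_injective (one_ne_zero)) h)
    · intro h
      exact absurd (Finset.mem_univ i) h
  · push Not at hd
    have h0 : F.coeff d = 0 := by
      by_contra hne
      have h1 := hF hne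
      have h2 : d.degree = 1 := by rw [Finsupp.degree_eq_weight_one]; exact h1
      rw [Finsupp.degree_eq_sum] at h2
      obtain ⟨i, -, hi⟩ := Finset.exists_ne_zero_of_sum_ne_zero (by rw [h2]; exact one_ne_zero)
      have h3 : ∀ j, j ≠ i → d j = 0 := by
        intro j hj
        rw [← Finset.add_sum_erase _ _ (Finset.mem_univ i),
          ← Finset.add_sum_erase _ _ (Finset.mem_erase.2 ⟨hj, Finset.mem_univ j⟩)] at h2
        omega
      have h4 : d i = 1 := by
        rw [← Finset.add_sum_erase _ _ (Finset.mem_univ i),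
          Finset.sum_eq_zero fun j hj => h3 j (Finset.ne_of_mem_erase hj)] at h2
        omega
      refine hd i (Finsupp.ext fun j => ?_)
      by_cases hj : j = i
      · subst hj; rw [h4]; simp
      · rw [h3 j hj, Finsupp.single_eq_of_ne hj]
    rw [h0]
    symm
    refine Finset.sum_eq_zero fun j _ => ?_
    rw [coeff_C_mul, coeff_X, if_neg (fun h => hd j h.symm), mul_zero]

lemma eval_linear {m : ℕ} (F : MvPolynomial (Fin m) ℤ) (hF : F.IsHomogeneous 1) (x : Fin m → ℤ) :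
    eval x F = ∑ i, coef F i * x i := by
  conv_lhs => rw [linear_eq F hF]
  rw [map_sum]
  refine Finset.sum_congr rfl fun i _ => ?_
  rw [map_mul, eval_C, eval_X]

lemma eval_lin_nat {m : ℕ} (F : MvPolynomial (Fin m) ℤ) (hF : F.IsHomogeneous 1) (a : Fin m → ℕ) :
    eval (fun i => (a i : ℤ)) F = Thin.lin (coef F) a := eval_linear F hF _

lemma coef_ne {m : ℕ} (F : MvPolynomial (Fin m) ℤ) (hF : F.IsHomogeneous 1) (h0 : F ≠ 0) :
    coef F ≠ 0 := by
  intro h
  apply h0
  rw [linear_eq F hF, h]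
  simp

lemma exists_coef_bound {m : ℕ} (u : Fin m → ℤ) : ∃ U : ℕ, 1 ≤ U ∧ ∀ i, |u i| ≤ U := by
  refine ⟨∑ i, (u i).natAbs + 1, by omega, fun i => ?_⟩
  have h2 : (u i).natAbs ≤ ∑ i, (u i).natAbs :=
    Finset.single_le_sum (f := fun i => (u i).natAbs) (fun _ _ => Nat.zero_le _)
      (Finset.mem_univ i)
  rw [Int.abs_eq_natAbs]
  exact_mod_cast h2.trans (Nat.le_succ _)

lemma mem_box_nat {m X : ℕ} {a : Fin m → ℕ} (ha : ∀ i, 1 ≤ a i ∧ a i ≤ X) :
    (fun i => (a i : ℤ)) ∈ box m X := by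
  rw [mem_box]
  intro i
  rw [Nat.abs_cast]
  exact_mod_cast (ha i).2

/-- **A linear form and a polynomial seldom have a large common divisor.** -/
theorem gcd_sparse {n : ℕ} {θ ε : ℝ} (hθ : 0 < θ) (hε : 0 < ε)
    (F H : MvPolynomial (Fin (n + 1)) ℤ) (hk : F.IsHomogeneous 1) (hirr : Irreducible (toQ F))
    (hH : ¬ toQ F ∣ toQ H) :
    TSparse (n + 1) θ (fun X a => eval (fun i => (a i : ℤ)) F ≠ 0 ∧
      (X : ℝ) ^ ε < rd (Int.gcd (eval (fun i => (a i : ℤ)) F) (eval (fun i => (a i : ℤ)) H))) := by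
  classical
  have hF0 : F ≠ 0 := by
    rintro rfl
    exact hirr.ne_zero (map_zero _)
  obtain ⟨i, hi⟩ : ∃ i, coef F i ≠ 0 := Function.ne_iff.1 (coef_ne F hk hF0)
  obtain ⟨U, hU, huU⟩ := exists_coef_bound (coef F)
  obtain ⟨r, P, Q, hrPQ, hr0⟩ := elimination F H hk hirr hH (Pi.single i 1) i (by
    rw [eval_linear F hk, Finset.sum_eq_single i]
    · simpa using hi
    · intro j _ hj
      rw [Pi.single_eq_of_ne hj, mul_zero]
    · intro h
      exact absurd (Finset.mem_univ i) h) (by simp)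
  set R := bind₁ (TH910.Voj.lin (Pi.single i 1) i) r with hR
  set W : (Fin (n + 1) → ℕ) → ℤ := fun a => eval (fun i => (a i : ℤ)) R with hW
  have hWi : ∀ b x, W (Function.update b i x) = W (Function.update b i 0) := by
    intro b x
    rw [hW]
    simp only
    rw [hR, eval_lin, eval_lin]
    congr 2
    funext j
    by_cases hj : j = i
    · subst hj; simp
    · simp [Function.update_of_ne hj, Pi.single_eq_of_ne hj]
  obtain ⟨c, hc1, hc⟩ := exists_eval_bound R le_rfl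
  set k := R.totalDegree with hk'
  obtain ⟨κ, hκ⟩ : ∃ κ, κ = ε * θ / 4 := ⟨_, rfl⟩
  have hκ0 : 0 < κ := by rw [hκ]; positivity
  obtain ⟨Cd, hCd0, hCd⟩ := Thin.divisor_bound (κ / (2 * (k + 1))) (by positivity)
  have hmain : TSparse (n + 1) θ (fun X a => W a ≠ 0 ∧ eval (fun i => (a i : ℤ)) F ≠ 0 ∧
      (X : ℝ) ^ ε < rd (Int.gcd (eval (fun i => (a i : ℤ)) F) (eval (fun i => (a i : ℤ)) H))) := by
    refine ⟨κ, κ, hκ0, hκ0, ?_⟩
    filter_upwards [eventually_ge_atTop 1,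
      ev_const (Cd * (c : ℝ) ^ (κ / (2 * (k + 1))) * (3 * ((n + 1 : ℕ) * U)) ^ θ) (κ / 2)
        (by positivity)] with X hX hXC A hA
    have hX1 : (1 : ℝ) ≤ X := by exact_mod_cast hX
    have hX0 : (0 : ℝ) < X := by linarith
    set E : ℕ := ⌈(X : ℝ) ^ ε⌉₊ with hE
    have hE1 : (X : ℝ) ^ ε ≤ E := Nat.le_ceil _
    have hXε : 1 ≤ (X : ℝ) ^ ε := Real.one_le_rpow hX1 hε.le
    have hE0 : 1 ≤ E := by
      have : (1 : ℝ) ≤ E := by linarith
      exact_mod_cast this
    set T : ℝ := Cd * (c : ℝ) ^ (κ / (2 * (k + 1))) * (X : ℝ) ^ (κ / 2) with hT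
    have hc0 : (0 : ℝ) < c := by exact_mod_cast hc1
    have hT0 : 0 ≤ T := by positivity
    refine ⟨(Fintype.piFinset A).filter fun a => W a ≠ 0 ∧ eval (fun i => (a i : ℤ)) F ≠ 0 ∧
      (X : ℝ) ^ ε < rd (Int.gcd (eval (fun i => (a i : ℤ)) F) (eval (fun i => (a i : ℤ)) H)), ?_,
        fun a ha h => Finset.mem_filter.2 ⟨ha, h⟩⟩
    refine (div_form (T := T) hA hθ.le (by positivity) hX U E hU hE0 hT0 W i hWi ?_ (coef F) hi huU _
      (Finset.filter_subset _ _) ?_).trans ?_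
    · intro a ha hWa
      have hrange := mem_range hA ha
      refine (hCd _ (Int.natAbs_ne_zero.2 hWa)).trans ?_
      have h1 : ((W a).natAbs : ℝ) ≤ c * (X : ℝ) ^ k := by
        exact_mod_cast hc X hX _ (mem_box_nat hrange)
      calc Cd * ((W a).natAbs : ℝ) ^ (κ / (2 * (k + 1))) ≤
          Cd * (c * (X : ℝ) ^ k) ^ (κ / (2 * (k + 1))) := by gcongr
        _ = Cd * ((c : ℝ) ^ (κ / (2 * (k + 1))) * (X : ℝ) ^ (k * (κ / (2 * (k + 1))))) := by
            rw [Real.mul_rpow hc0.le (by positivity), ← Real.rpow_natCast,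
              ← Real.rpow_mul hX0.le]
        _ ≤ Cd * ((c : ℝ) ^ (κ / (2 * (k + 1))) * (X : ℝ) ^ (κ / 2)) := by
            have hexp : (k : ℝ) * (κ / (2 * (k + 1))) ≤ κ / 2 := by
              rw [mul_div_assoc', div_le_div_iff₀ (by positivity) (by norm_num)]
              nlinarith [Nat.cast_nonneg (α := ℝ) k]
            have := Real.rpow_le_rpow_of_exponent_le hX1 hexp
            gcongr
        _ = T := by rw [hT]; ring
    · intro a ha
      rw [Finset.mem_filter] at ha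
      obtain ⟨haA, hWa, hFa, hgcd⟩ := ha
      have hrange := mem_range hA haA
      refine ⟨hWa, rd (Int.gcd (eval (fun i => (a i : ℤ)) F) (eval (fun i => (a i : ℤ)) H)),
        Nat.ceil_le.2 hgcd.le, ?_, ?_, ?_⟩
      · have h1 : rd (Int.gcd (eval (fun i => (a i : ℤ)) F) (eval (fun i => (a i : ℤ)) H)) ≤
            (Thin.lin (coef F) a).natAbs := by
          rw [eval_lin_nat F hk] at hFa ⊢
          refine Nat.le_of_dvd (Int.natAbs_pos.2 hFa) ((rd_dvd _).trans ?_)
          exact Int.natCast_dvd.1 (Int.gcd_dvd_left _ _)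
        have h2 := lin_le hA U (coef F) huU haA
        have h3 : (Thin.lin (coef F) a).natAbs ≤ (n + 1) * U * X := by
          have : ((Thin.lin (coef F) a).natAbs : ℤ) ≤ (((n + 1) * U * X : ℕ) : ℤ) := by
            rw [Int.natCast_natAbs]
            push_cast at h2 ⊢
            exact h2
          exact_mod_cast this
        calc _ ≤ (n + 1) * U * X := h1.trans h3
          _ ≤ 2 * ((n + 1) * U) * X := by nlinarith [Nat.zero_le ((n + 1) * U * X)]
      · rw [← eval_lin_nat F hk]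
        exact (Int.natCast_dvd_natCast.2 (rd_dvd _)).trans (Int.gcd_dvd_left _ _)
      · have h1 : W a = eval (fun i => (a i : ℤ)) P * eval (fun i => (a i : ℤ)) F +
            eval (fun i => (a i : ℤ)) Q * eval (fun i => (a i : ℤ)) H := by
          rw [hW]
          simp only
          rw [hrPQ, map_add, map_mul, map_mul]
        rw [h1]
        have h2 := Int.gcd_dvd_left (eval (fun i => (a i : ℤ)) F) (eval (fun i => (a i : ℤ)) H)
        have h3 := Int.gcd_dvd_right (eval (fun i => (a i : ℤ)) F) (eval (fun i => (a i : ℤ)) H)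
        have h4 := (Int.natCast_dvd_natCast.2 (rd_dvd (Int.gcd (eval (fun i => (a i : ℤ)) F)
          (eval (fun i => (a i : ℤ)) H))))
        exact dvd_add ((h4.trans h2).mul_left _) ((h4.trans h3).mul_left _)
    · have hprod : 0 ≤ ∏ j, ((A j).card : ℝ) := Finset.prod_nonneg fun j _ => Nat.cast_nonneg _
      refine mul_le_mul_of_nonneg_right ?_ hprod
      have hV0 : (0 : ℝ) ≤ 3 * (((n + 1 : ℕ) : ℝ) * U) := by positivity
      have e1 : (3 * (((n + 1) * U : ℕ) : ℝ) / (E : ℝ)) ^ θ ≤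
          (3 * (((n + 1 : ℕ) : ℝ) * U)) ^ θ * (X : ℝ) ^ (-(ε * θ)) := by
        rw [Real.rpow_neg hX0.le, Real.rpow_mul hX0.le, ← div_eq_mul_inv,
          ← Real.div_rpow hV0 (by positivity)]
        refine Real.rpow_le_rpow (by positivity) ?_ hθ.le
        push_cast
        gcongr
      calc (X : ℝ) ^ κ * (T * (3 * (((n + 1) * U : ℕ) : ℝ) / (E : ℝ)) ^ θ) ≤
          (X : ℝ) ^ κ * (T * ((3 * (((n + 1 : ℕ) : ℝ) * U)) ^ θ * (X : ℝ) ^ (-(ε * θ)))) := by
            gcongr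
        _ = (Cd * (c : ℝ) ^ (κ / (2 * (k + 1))) * (3 * (((n + 1 : ℕ) : ℝ) * U)) ^ θ) *
            ((X : ℝ) ^ κ * (X : ℝ) ^ (κ / 2) * (X : ℝ) ^ (-(ε * θ))) := by
            rw [hT]; ring
        _ ≤ (X : ℝ) ^ (κ / 2) * ((X : ℝ) ^ κ * (X : ℝ) ^ (κ / 2) * (X : ℝ) ^ (-(ε * θ))) := by
            gcongr
        _ = (X : ℝ) ^ (κ / 2 + (κ + κ / 2 + -(ε * θ))) := by
            rw [← Real.rpow_add hX0, ← Real.rpow_add hX0, ← Real.rpow_add hX0]
        _ ≤ (X : ℝ) ^ (-κ) := by
            refine Real.rpow_le_rpow_of_exponent_le hX1 ?_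
            have : 4 * κ = ε * θ := by rw [hκ]; ring
            linarith
  refine ((zero_sparse hθ R hr0).or hmain).mono (Eventually.of_forall fun X a _ h => ?_)
  by_cases h0 : eval (fun i => (a i : ℤ)) R = 0
  · exact Or.inl h0
  · exact Or.inr ⟨h0, h⟩

/-- **The radical of a linear form is seldom small.** -/
theorem rad_sparse {n : ℕ} {θ ε : ℝ} (hθ : 1 / 2 < θ) (hθ1 : θ ≤ 1) (hε : 0 < ε)
    (F : MvPolynomial (Fin (n + 1)) ℤ) (hk : F.IsHomogeneous 1) (hF : F ≠ 0) :
    TSparse (n + 1) θ (fun X a => eval (fun i => (a i : ℤ)) F ≠ 0 ∧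
      (rd (eval (fun i => (a i : ℤ)) F).natAbs : ℝ) ≤ (X : ℝ) ^ (1 - ε)) := by
  classical
  obtain ⟨U, hU, huU⟩ := exists_coef_bound (coef F)
  obtain ⟨e, he⟩ : ∃ e, e = min (1 / 2) (ε / 8) := ⟨_, rfl⟩
  have he0 : 0 < e := by rw [he]; exact lt_min (by norm_num) (by positivity)
  have he1 : e < 1 := by
    rw [he]; exact lt_of_le_of_lt (min_le_left _ _) (by norm_num)
  have he8 : 8 * e ≤ ε := by
    rw [he]
    linarith [min_le_right (1 / 2 : ℝ) (ε / 8)]
  obtain ⟨δ, η, hδ, hη, -, h⟩ := thin_good (n + 1) 2 θ e 1 (by omega) (by linarith) hθ1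
    (by push_cast; linarith) he0 he1 one_pos
  refine ⟨δ, η, hδ, hη, ?_⟩
  filter_upwards [h, eventually_ge_atTop 1, ev_const U η hη, ev_const 4 e he0] with
    X hX hX1 hUX h4 A hA
  have hX1r : (1 : ℝ) ≤ X := by exact_mod_cast hX1
  have hX0 : (0 : ℝ) < X := by linarith
  obtain ⟨S, -, hS, hgood⟩ := hX A hA
  refine ⟨S, hS, fun a ha ⟨h0, hrd⟩ => ?_⟩
  by_contra haS
  have hg := hgood a ha haS
  have hUf : U ≤ ⌊(X : ℝ) ^ η⌋₊ := Nat.le_floor hUX
  obtain ⟨hY, hE⟩ := hg.1 (coef F) (coef_ne F hk hF)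
    (fun i => (huU i).trans (by exact_mod_cast hUf))
  rw [eval_lin_nat F hk] at h0 hrd
  set v := Thin.lin (coef F) a with hv
  have hv0 : v.natAbs ≠ 0 := Int.natAbs_ne_zero.2 h0
  have hrad := rad_lower v.natAbs hv0 ⌈(X : ℝ) ^ e⌉₊ (fun t ht => hE t (by
    have := Int.natCast_dvd.2 ht
    push_cast at this
    exact this)) ∅
  rw [Finset.sum_empty, sub_zero, Finset.sdiff_empty] at hrad
  have hrdl : Real.log (rd v.natAbs) = ∑ p ∈ v.natAbs.primeFactors, Real.log (p : ℝ) := by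
    unfold rd
    push_cast
    rw [Real.log_prod]
    intro p hp
    exact_mod_cast (Nat.prime_of_mem_primeFactors hp).ne_zero
  rw [← hrdl] at hrad
  have hXe : 1 ≤ (X : ℝ) ^ e := Real.one_le_rpow hX1r he0.le
  have hY' : (X : ℝ) ^ (1 - e) < 2 * v.natAbs := by
    have e1 : (X : ℝ) ^ (1 - e) < ⌊(X : ℝ) ^ (1 - e)⌋₊ + 1 := Nat.lt_floor_add_one _
    have e2 : (⌊(X : ℝ) ^ (1 - e)⌋₊ : ℝ) < v.natAbs := by
      have : ((⌊(X : ℝ) ^ (1 - e)⌋₊ : ℕ) : ℤ) < (v.natAbs : ℤ) := by
        rw [Int.natCast_natAbs]; exact hY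
      exact_mod_cast this
    have e3 : (1 : ℝ) ≤ v.natAbs := by exact_mod_cast Nat.one_le_iff_ne_zero.2 hv0
    linarith
  have hlog1 : (1 - e) * Real.log X ≤ Real.log 2 + Real.log v.natAbs := by
    have e3 : (0 : ℝ) < v.natAbs := by exact_mod_cast Nat.pos_of_ne_zero hv0
    rw [← Real.log_mul (by norm_num) e3.ne', ← Real.log_rpow hX0]
    exact Real.log_le_log (by positivity) hY'.le
  have hlog2 : Real.log (⌈(X : ℝ) ^ e⌉₊ : ℝ) ≤ Real.log 2 + e * Real.log X := by
    rw [← Real.log_rpow hX0, ← Real.log_mul (by norm_num) (by positivity)]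
    refine Real.log_le_log ?_ ?_
    · exact_mod_cast Nat.ceil_pos.2 (by linarith)
    · have := (Nat.ceil_lt_add_one (by positivity : (0 : ℝ) ≤ (X : ℝ) ^ e)).le
      linarith
  have hlog3 : 2 * Real.log 2 ≤ e * Real.log X := by
    rw [← Real.log_rpow hX0]
    have : (2 : ℝ) * Real.log 2 = Real.log 4 := by
      rw [show (4 : ℝ) = 2 ^ 2 by norm_num, Real.log_pow]; norm_num
    rw [this]
    exact Real.log_le_log (by norm_num) h4
  have hlog4 : Real.log (rd v.natAbs) ≤ (1 - ε) * Real.log X := by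
    rw [← Real.log_rpow hX0]
    exact Real.log_le_log (by exact_mod_cast rd_pos _) hrd
  have hlogX : 0 < Real.log X := by
    have : 0 < 2 * Real.log 2 := by positivity
    by_contra hcon
    push Not at hcon
    nlinarith
  nlinarith

end Pool.Agent.W5h37.VT
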