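import Pool.Agent.W5h37.VT.Uniform

/-!
# All forms of bounded degree with small coefficients at once
-/

set_option autoImplicit false

namespace Pool.Agent.W5h37.VT

open Finset Filter Pool.Agent.W5h37.Thin MvPolynomial

/-- the polynomials of bounded degree and with bounded coefficients -/
noncomputable def polys (m d H : ℕ) : Finset (MvPolynomial (Fin m) ℤ) :=
  open Classical in
  (Fintype.piFinset fun _ : Fin m → Fin (d + 1) => Finset.Icc (-(H : ℤ)) H).image fun c =>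
    ∑ s : Fin m → Fin (d + 1), monomial (Finsupp.equivFunOnFinite.symm fun i => (s i : ℕ)) (c s)

lemma card_polys (m d H : ℕ) : (polys m d H).card ≤ (2 * H + 1) ^ ((d + 1) ^ m) := by
  classical
  unfold polys
  refine Finset.card_image_le.trans ?_
  rw [Fintype.card_piFinset, Finset.prod_const, Int.card_Icc, Finset.card_univ, Fintype.card_fun,
    Fintype.card_fin, Fintype.card_fin]
  have h2 : ((H : ℤ) + 1 - -(H : ℤ)).toNat = 2 * H + 1 := by omega
  rw [h2]

lemma mem_polys {m d H : ℕ} (G : MvPolynomial (Fin m) ℤ) (hd : G.totalDegree ≤ d)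
    (hc : ∀ s, |G.coeff s| ≤ (H : ℤ)) : G ∈ polys m d H := by
  classical
  unfold polys
  rw [Finset.mem_image]
  refine ⟨fun s => G.coeff (Finsupp.equivFunOnFinite.symm fun i => (s i : ℕ)), ?_, ?_⟩
  · rw [Fintype.mem_piFinset]
    exact fun s => Finset.mem_Icc.2 (abs_le.1 (hc _))
  · ext t
    rw [MvPolynomial.coeff_sum]
    simp only [coeff_monomial]
    by_cases ht : ∀ i, t i ≤ d
    · rw [Finset.sum_eq_single (fun i => (⟨t i, Nat.lt_succ_of_le (ht i)⟩ : Fin (d + 1)))]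
      · have : (Finsupp.equivFunOnFinite.symm fun i => t i) = t := by
          ext i; simp
        simp only [this, if_true]
      · intro s _ hs
        rw [if_neg]
        intro h
        apply hs
        funext i
        apply Fin.ext
        have := DFunLike.congr_fun h i
        simpa using this
      · intro h
        exact absurd (Finset.mem_univ _) h
    · push Not at ht
      obtain ⟨i, hi⟩ := ht
      have h0 : G.coeff t = 0 := by
        by_contra hne
        have h1 := le_totalDegree (mem_support_iff.2 hne)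
        have h2 : t i ≤ t.sum fun _ e => e := by
          by_cases hti : i ∈ t.support
          · exact Finset.single_le_sum (f := fun j => t j) (fun _ _ => Nat.zero_le _) hti
          · rw [Finsupp.notMem_support_iff.1 hti]; exact Nat.zero_le _
        omega
      rw [h0]
      refine Finset.sum_eq_zero fun s _ => ?_
      rw [if_neg]
      intro h
      have := DFunLike.congr_fun h i
      simp only [Finsupp.equivFunOnFinite_symm_apply_apply] at this
      have := (s i).2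
      omega

/-- the absolute values -/
noncomputable def vals (p : ℕ) : UVal :=
  open Classical in if hp : p.Prime then upadic p hp else uarch

/-- **The values of all forms of bounded degree with small coefficients.** -/
theorem moving (m d : ℕ) (θ ε : ℝ) (hθ : 0 < θ) (hε : 0 < ε) (hε1 : ε ≤ 1) :
    ∃ δ η : ℝ, 0 < δ ∧ 0 < η ∧ ∀ᶠ X : ℕ in atTop, ∀ A : Fin m → Finset ℕ,
      (∀ i, Spread X θ ((X : ℝ) ^ η) (A i)) → ∃ S : Finset (Fin m → ℕ),
        (S.card : ℝ) ≤ (X : ℝ) ^ (-δ) * ∏ i, ((A i).card : ℝ) ∧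
        ∀ a ∈ Fintype.piFinset A, a ∉ S → ∀ (G : MvPolynomial (Fin m) ℤ) (k : ℕ), G ≠ 0 →
          k ≤ d → G.IsHomogeneous k → (∀ s, |((G.coeff s : ℤ) : ℝ)| ≤ (X : ℝ) ^ η) →
          (X : ℝ) ^ ((k : ℝ) - ε) < |((eval (fun i => (a i : ℤ)) G : ℤ) : ℝ)| ∧
          ∀ p : ℕ, p.Prime → (p : ℝ) ≤ (X : ℝ) ^ η →
            ((p ^ padicValInt p (eval (fun i => (a i : ℤ)) G) : ℕ) : ℝ) < (X : ℝ) ^ ε := by
  classical
  obtain ⟨δ₁, η₁, hδ₁, hη₁, h⟩ := val_uniform θ hθ d m ε hε hε1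
  obtain ⟨M, hM⟩ : ∃ M, M = (d + 1) ^ m := ⟨_, rfl⟩
  obtain ⟨η, hη⟩ : ∃ η, η = min η₁ (δ₁ / (4 * (M + 1))) := ⟨_, rfl⟩
  have hη0 : 0 < η := by rw [hη]; exact lt_min hη₁ (by positivity)
  have hηη₁ : η ≤ η₁ := by rw [hη]; exact min_le_left _ _
  have hηM : (M + 1) * η ≤ δ₁ / 4 := by
    have h1 : η ≤ δ₁ / (4 * (M + 1)) := by rw [hη]; exact min_le_right _ _
    rw [le_div_iff₀ (by positivity)] at h1
    linarith
  refine ⟨δ₁ / 2, η, by positivity, hη0, ?_⟩
  filter_upwards [h, eventually_ge_atTop 1, ev_const (2 * 3 ^ M * (d + 1)) (δ₁ / 4)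
    (by positivity)] with X hX hX1 hXC A hA
  have hX1r : (1 : ℝ) ≤ X := by exact_mod_cast hX1
  have hX0 : (0 : ℝ) < X := by linarith
  have hXη : 1 ≤ (X : ℝ) ^ η := Real.one_le_rpow hX1r hη0.le
  set H : ℕ := ⌊(X : ℝ) ^ η⌋₊ with hH
  have hHle : (H : ℝ) ≤ (X : ℝ) ^ η := Nat.floor_le (by positivity)
  have hprod : 0 ≤ ∏ i, ((A i).card : ℝ) := Finset.prod_nonneg fun _ _ => Nat.cast_nonneg _
  have hηX : (X : ℝ) ^ η ≤ (X : ℝ) ^ η₁ := Real.rpow_le_rpow_of_exponent_le hX1r hηη₁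
  have hex : ∀ t : ℕ × MvPolynomial (Fin m) ℤ × ℕ, ∃ S : Finset (Fin m → ℕ),
      (S.card : ℝ) ≤ (X : ℝ) ^ (-δ₁) * ∏ i, ((A i).card : ℝ) ∧
      (t.2.1 ≠ 0 → t.2.1.totalDegree ≤ d → (∀ s, |((t.2.1.coeff s : ℤ) : ℝ)| ≤ (X : ℝ) ^ η) →
        t.2.1.IsHomogeneous t.2.2 → ∀ a ∈ Fintype.piFinset A,
          (vals t.1).ν (eval (fun i => (a i : ℤ)) t.2.1) ≤
            (X : ℝ) ^ (t.2.2 * (vals t.1).σ - ε) → a ∈ S) := by
    rintro ⟨p, G, k⟩
    by_cases hc : G ≠ 0 ∧ G.totalDegree ≤ d ∧ (∀ s, |((G.coeff s : ℤ) : ℝ)| ≤ (X : ℝ) ^ η) ∧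
        G.IsHomogeneous k
    · obtain ⟨S, hS, hS'⟩ := hX A (fun i => spread_mono (hA i) hηX) (vals p) G hc.1 hc.2.1
        (fun s => (hc.2.2.1 s).trans hηX) k (Or.inr hc.2.2.2)
      exact ⟨S, hS, fun _ _ _ _ => hS'⟩
    · refine ⟨∅, ?_, fun h1 h2 h3 h4 => absurd ⟨h1, h2, h3, h4⟩ hc⟩
      rw [Finset.card_empty, Nat.cast_zero]
      positivity
  choose f hf1 hf2 using hex
  refine ⟨(range (H + 1) ×ˢ (polys m d H ×ˢ range (d + 1))).biUnion f, ?_, ?_⟩
  · have h1 : (((range (H + 1) ×ˢ (polys m d H ×ˢ range (d + 1))).biUnion f).card : ℝ) ≤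
        ∑ t ∈ range (H + 1) ×ˢ (polys m d H ×ˢ range (d + 1)), ((f t).card : ℝ) := by
      exact_mod_cast Finset.card_biUnion_le
    refine h1.trans ((Finset.sum_le_card_nsmul _ _ _ fun t _ => hf1 t).trans ?_)
    rw [nsmul_eq_mul, Finset.card_product, Finset.card_product, Finset.card_range,
      Finset.card_range, ← mul_assoc]
    refine mul_le_mul_of_nonneg_right ?_ hprod
    have h2 : ((polys m d H).card : ℝ) ≤ (3 * (X : ℝ) ^ η) ^ M := by
      have h3 : ((polys m d H).card : ℝ) ≤ (2 * H + 1) ^ M := by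
        rw [hM]
        exact_mod_cast card_polys m d H
      refine h3.trans (pow_le_pow_left₀ (by positivity) ?_ _)
      linarith
    have h4 : ((H + 1 : ℕ) : ℝ) ≤ 2 * (X : ℝ) ^ η := by push_cast; linarith
    push_cast at h4 ⊢
    calc ((H : ℝ) + 1) * ((polys m d H).card * ((d : ℝ) + 1)) * (X : ℝ) ^ (-δ₁) ≤
        (2 * (X : ℝ) ^ η) * ((3 * (X : ℝ) ^ η) ^ M * ((d : ℝ) + 1)) * (X : ℝ) ^ (-δ₁) := by
          gcongr
      _ = (2 * 3 ^ M * (d + 1)) * ((X : ℝ) ^ ((M + 1) * η) * (X : ℝ) ^ (-δ₁)) := by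
          rw [mul_pow, ← Real.rpow_natCast ((X : ℝ) ^ η) M, ← Real.rpow_mul hX0.le,
            add_mul, one_mul, Real.rpow_add hX0, mul_comm η (M : ℝ)]
          ring
      _ ≤ (X : ℝ) ^ (δ₁ / 4) * ((X : ℝ) ^ ((M + 1) * η) * (X : ℝ) ^ (-δ₁)) := by gcongr
      _ = (X : ℝ) ^ (δ₁ / 4 + ((M + 1) * η + -δ₁)) := by
          rw [← Real.rpow_add hX0, ← Real.rpow_add hX0]
      _ ≤ (X : ℝ) ^ (-(δ₁ / 2)) := Real.rpow_le_rpow_of_exponent_le hX1r (by linarith)
  · intro a ha haS G k hG hk hGk hGX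
    have hGd : G.totalDegree ≤ d := hGk.totalDegree_le.trans hk
    have hGH : ∀ s, |G.coeff s| ≤ (H : ℤ) := by
      intro s
      have h1 := hGX s
      have h2 : ((G.coeff s).natAbs : ℝ) ≤ (X : ℝ) ^ η := by
        rwa [Nat.cast_natAbs, Int.cast_abs]
      have h3 : (G.coeff s).natAbs ≤ H := Nat.le_floor h2
      rw [Int.abs_eq_natAbs]
      exact_mod_cast h3
    have hmem : ∀ p : ℕ, p ≤ H →
        (X : ℝ) ^ (k * (vals p).σ - ε) < (vals p).ν (eval (fun i => (a i : ℤ)) G) := by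
      intro p hp
      by_contra hcon
      push Not at hcon
      apply haS
      rw [Finset.mem_biUnion]
      refine ⟨(p, G, k), ?_, hf2 (p, G, k) hG hGd hGX hGk a ha hcon⟩
      rw [Finset.mem_product, Finset.mem_product, Finset.mem_range, Finset.mem_range]
      exact ⟨Nat.lt_succ_of_le hp, mem_polys G hGd hGH, Nat.lt_succ_of_le hk⟩
    have harch := hmem 0 (Nat.zero_le _)
    have hv0 : vals 0 = uarch := by
      unfold vals
      rw [dif_neg Nat.not_prime_zero]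
    rw [hv0] at harch
    change (X : ℝ) ^ ((k : ℝ) * 1 - ε) < |((eval (fun i => (a i : ℤ)) G : ℤ) : ℝ)| at harch
    rw [mul_one] at harch
    refine ⟨harch, fun p hp hpX => ?_⟩
    have hv0 : eval (fun i => (a i : ℤ)) G ≠ 0 := by
      intro h0
      rw [h0, Int.cast_zero, abs_zero] at harch
      have : 0 ≤ (X : ℝ) ^ ((k : ℝ) - ε) := by positivity
      linarith
    have h1 := hmem p (Nat.le_floor hpX)
    have hvp : vals p = upadic p hp := by
      unfold vals
      rw [dif_pos hp]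
    rw [hvp] at h1
    change (X : ℝ) ^ ((k : ℝ) * 0 - ε) <
      ((padicNorm p ((eval (fun i => (a i : ℤ)) G : ℤ) : ℚ) : ℚ) : ℝ) at h1
    have _ := Fact.mk hp
    have hp0 : (0 : ℝ) < p := by exact_mod_cast hp.pos
    rw [padicNorm.eq_zpow_of_nonzero (by exact_mod_cast hv0), padicValRat.of_int] at h1
    push_cast at h1 ⊢
    rw [mul_zero, zero_sub, zpow_neg, zpow_natCast, Real.rpow_neg hX0.le] at h1
    exact (inv_lt_inv₀ (by positivity) (by positivity)).1 h1

end Pool.Agent.W5h37.VT
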