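import Pool.Agent.W5h37.VT.Gcd
import Pool.Agent.W5h37.VT.Moving

/-!
# Points of degree `N` over almost all rational points with coordinates in thin sets
-/

set_option autoImplicit false

namespace Pool.Agent.W5h37.VT

open Filter MvPolynomial NumberField Pool.Agent.W5h37.Thin Pool.Agent.TH910.Voj Pool.Agent.H813R3.Voj

theorem main_thin {n : ℕ} {A : Type} [CommRing A] [IsDomain A] [IsIntegrallyClosed A]
    [Algebra (MvPolynomial (Fin (n + 1)) ℚ) A] [Module.Finite (MvPolynomial (Fin (n + 1)) ℚ) A]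
    [FaithfulSMul (MvPolynomial (Fin (n + 1)) ℚ) A] (N : ℕ)
    (hN : Module.finrank (MvPolynomial (Fin (n + 1)) ℚ) A = N) {q : ℕ}
    (F : Fin q → MvPolynomial (Fin (n + 1)) ℤ) (s : Fin q → ℕ)
    (hhom : ∀ j, (F j).IsHomogeneous 1) (hirr : ∀ j, Irreducible (toQ (F j)))
    (hdist : ∀ i j, i ≠ j → ¬ Associated (toQ (F i)) (toQ (F j)))
    (hsN : ∀ j, s j ≤ N) (hs : ∀ j, DegreeLE (A := A) (toQ (F j)) (s j))
    (κ : ℝ) (hκ : κ < ∑ j, (1 - (s j : ℝ) / N)) (ϑ : ℝ) (hϑ : 1 / 2 < ϑ) (hϑ1 : ϑ ≤ 1)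
    (d s₀ : ℕ) :
    ∃ δ η : ℝ, 0 < δ ∧ 0 < η ∧ ∀ᶠ B : ℕ in atTop, ∀ A' : Fin (n + 1) → Finset ℕ,
      (∀ i, Spread B ϑ ((B : ℝ) ^ η) (A' i)) → ∃ T : Finset (Fin (n + 1) → ℕ),
        (T.card : ℝ) ≤ (B : ℝ) ^ (-δ) * ∏ i, ((A' i).card : ℝ) ∧
        ∀ a ∈ Fintype.piFinset A', (∃ (K : Type) (_ : Field K) (_ : NumberField K) (φ : A →+* K),
          Function.Surjective φ ∧ Module.finrank ℚ K = N ∧
          (∀ i, φ (algebraMap (MvPolynomial (Fin (n + 1)) ℚ) A (X i)) = ((a i : ℤ) : K)) ∧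
          ∃ (G : MvPolynomial (Fin (n + 1)) ℤ) (k : ℕ) (S : Finset ℕ), G ≠ 0 ∧ k ≤ d ∧
            G.IsHomogeneous k ∧ (∀ s, |((G.coeff s : ℤ) : ℝ)| ≤ (B : ℝ) ^ η) ∧ S.card ≤ s₀ ∧
            (∀ p ∈ S, p.Prime ∧ (p : ℝ) ≤ (B : ℝ) ^ η) ∧
            Real.log |(NumberField.discr K : ℝ)| / N <
              κ * Real.log B + proximity G k S (fun i => (a i : ℤ))) → a ∈ T := by
  classical
  have hdata := fun j => exists_norm_data (A := A) (F j) (hirr j) (s j) N hN (hs j)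
  choose g hg hspec using hdata
  set H : Fin q → MvPolynomial (Fin (n + 1)) ℤ := fun j => g j * ∏ i ∈ Finset.univ.erase j, F i
    with hH
  have hHdvd : ∀ j, ¬ toQ (F j) ∣ toQ (H j) := by
    intro j hdvd
    rw [hH, RingHom.map_mul, map_prod] at hdvd
    rcases (hirr j).prime.dvd_or_dvd hdvd with h1 | h1
    · exact hg j h1
    · obtain ⟨i, hi, h2⟩ := ((hirr j).prime.dvd_finsetProd_iff _).mp h1
      exact hdist j i (Finset.ne_of_mem_erase hi).symm ((hirr j).associated_of_dvd (hirr i) h2)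
  have hF0 : ∀ j, F j ≠ 0 := by
    intro j h0
    exact (hirr j).ne_zero (by rw [h0, map_zero])
  have hϑ0 : 0 < ϑ := by linarith
  set Δ : ℝ := (∑ j, (1 - (s j : ℝ) / N)) - κ with hΔ
  have hΔ0 : 0 < Δ := by rw [hΔ]; linarith
  set θ : ℝ := Δ / (12 * (q + 1)) with hθ
  have hθ0 : 0 < θ := by positivity
  set ε : ℝ := min 1 (Δ / (4 * (s₀ + 1))) with hε
  have hε0 : 0 < ε := lt_min one_pos (by positivity)
  have hε1 : ε ≤ 1 := min_le_left _ _
  have hεS : (s₀ + 1) * ε ≤ Δ / 4 := by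
    have h1 : ε ≤ Δ / (4 * (s₀ + 1)) := min_le_right _ _
    have h2 : (0 : ℝ) < s₀ + 1 := by positivity
    calc (s₀ + 1) * ε ≤ (s₀ + 1) * (Δ / (4 * (s₀ + 1))) :=
          mul_le_mul_of_nonneg_left h1 h2.le
      _ = Δ / 4 := by field_simp
  have hval := fun j => exists_eval_bound (F j) (hhom j).totalDegree_le
  choose c hc1 hc using hval
  obtain ⟨B₀, hB₀⟩ : ∃ B₀ : ℕ, ∀ B : ℕ, B₀ ≤ B → ∑ j, Real.log (c j) ≤ Δ / 2 * Real.log B := by
    have h1 : Filter.Tendsto (fun B : ℕ => Δ / 2 * Real.log B) Filter.atTop Filter.atTop :=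
      (Real.tendsto_log_atTop.comp tendsto_natCast_atTop_atTop).const_mul_atTop (by positivity)
    exact Filter.eventually_atTop.mp (h1.eventually_ge_atTop (∑ j, Real.log (c j)))
  have hsp : ∀ j, TSparse (n + 1) ϑ (fun B a => eval (fun i => (a i : ℤ)) (F j) = 0 ∨
      ((eval (fun i => (a i : ℤ)) (F j) ≠ 0 ∧
        (rd (eval (fun i => (a i : ℤ)) (F j)).natAbs : ℝ) ≤ (B : ℝ) ^ (1 - θ)) ∨
        (eval (fun i => (a i : ℤ)) (F j) ≠ 0 ∧ (B : ℝ) ^ θ <
          rd (Int.gcd (eval (fun i => (a i : ℤ)) (F j)) (eval (fun i => (a i : ℤ)) (H j)))))) :=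
    fun j => (zero_sparse hϑ0 (F j) (hF0 j)).or
      ((rad_sparse hϑ hϑ1 hθ0 (F j) (hhom j) (hF0 j)).or
        (gcd_sparse hϑ0 hθ0 (F j) (H j) (hhom j) (hirr j) (hHdvd j)))
  obtain ⟨δ₁, η₁, hδ₁, hη₁, h₁⟩ := TSparse.exists_fin hsp
  obtain ⟨δ₂, η₂, hδ₂, hη₂, h₂⟩ := moving (n + 1) d ϑ ε hϑ0 hε0 hε1
  obtain ⟨μ, hμ⟩ : ∃ μ, μ = min δ₁ δ₂ := ⟨_, rfl⟩
  have hμ0 : 0 < μ := by rw [hμ]; exact lt_min hδ₁ hδ₂
  refine ⟨μ / 2, min η₁ η₂, by positivity, lt_min hη₁ hη₂, ?_⟩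
  filter_upwards [eventually_ge_atTop B₀, eventually_ge_atTop 1, h₁, h₂,
    ev_const 2 (μ / 2) (by positivity)] with B hBB hB hX₁ hX₂ h2 A' hA'
  have hB1 : (1 : ℝ) ≤ B := by exact_mod_cast hB
  have hm₁ : (B : ℝ) ^ (min η₁ η₂) ≤ (B : ℝ) ^ η₁ :=
    Real.rpow_le_rpow_of_exponent_le hB1 (min_le_left _ _)
  have hm₂ : (B : ℝ) ^ (min η₁ η₂) ≤ (B : ℝ) ^ η₂ :=
    Real.rpow_le_rpow_of_exponent_le hB1 (min_le_right _ _)
  obtain ⟨T₁, hT₁, hT₁'⟩ := hX₁ A' fun i => spread_mono (hA' i) hm₁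
  obtain ⟨T₂, hT₂, hT₂'⟩ := hX₂ A' fun i => spread_mono (hA' i) hm₂
  have hprod : 0 ≤ ∏ i, ((A' i).card : ℝ) := Finset.prod_nonneg fun _ _ => Nat.cast_nonneg _
  refine ⟨T₁ ∪ T₂, ?_, ?_⟩
  · have h1 : ((T₁ ∪ T₂).card : ℝ) ≤ T₁.card + T₂.card := by
      exact_mod_cast Finset.card_union_le _ _
    exact h1.trans (union_arith hB1 hprod h2 hT₁ hT₂ (by rw [hμ]; exact min_le_left _ _)
      (by rw [hμ]; exact min_le_right _ _))
  intro a haA ⟨K, _, _, φ, hφs, hK, hφ, G, k, S, hG0, hkd, hG, hGX, hSc, hSp, hlt⟩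
  have ha' := mem_range hA' haA
  set x : Fin (n + 1) → ℤ := fun i => (a i : ℤ) with hxdef
  have hx : x ∈ box (n + 1) B := mem_box_nat ha'
  by_contra hcon'
  rw [Finset.mem_union, not_or] at hcon'
  have hcon : ¬ ∃ j, eval x (F j) = 0 ∨
      ((eval x (F j) ≠ 0 ∧ (rd (eval x (F j)).natAbs : ℝ) ≤ (B : ℝ) ^ (1 - θ)) ∨
        (eval x (F j) ≠ 0 ∧ (B : ℝ) ^ θ <
          rd (Int.gcd (eval x (F j)) (eval x (H j))))) := fun h => hcon'.1 (hT₁' a haA h)
  obtain ⟨hconG, hconp⟩ := hT₂' a haA hcon'.2 G k hG0 hkd hG (fun s => (hGX s).trans hm₂)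
  push Not at hcon
  have hBpos : (0 : ℝ) < B := by linarith
  have hlogB : 0 ≤ Real.log B := Real.log_nonneg hB1
  have hprox : proximity G k S x ≤ (s₀ + 1) * ε * Real.log B := by
    have h0 : eval x G ≠ 0 := by
      intro h0
      rw [← hxdef, h0, Int.cast_zero, abs_zero] at hconG
      have : 0 ≤ (B : ℝ) ^ ((k : ℝ) - ε) := by positivity
      linarith
    have h1 : ¬ ((eval x G).natAbs : ℝ) ≤ (B : ℝ) ^ ((k : ℝ) - ε) := by
      rw [Nat.cast_natAbs, Int.cast_abs]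
      exact not_le.2 hconG
    refine (proximity_le G k S ε B hB x hx h0 h1
      (fun p hp => not_lt.2 (hconp p (hSp p hp).1 ((hSp p hp).2.trans hm₂)).le)
      (fun p hp => (hSp p hp).1)).trans ?_
    have h2 : (S.card : ℝ) ≤ s₀ := by exact_mod_cast hSc
    gcongr
  have ha : ∀ j, eval x (F j) ≠ 0 := fun j => (hcon j).1
  have hab : ∀ i j, i ≠ j → eval x (F i) ∣ eval x (H j) := by
    intro i j hij
    rw [hH]
    simp only [map_mul, map_prod]
    refine Dvd.dvd.mul_left ?_ _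
    exact Finset.dvd_prod_of_mem (fun i => eval x (F i))
      (Finset.mem_erase.mpr ⟨hij, Finset.mem_univ i⟩)
  have hsum := sum_good_le_norm (K := K) (fun j => eval x (F j)) (fun j => eval x (H j)) s ha hab
    (by
      intro j p hp
      rw [mem_good (ha j)] at hp
      refine hspec j K φ x hφs hK hφ p hp.1 hp.2.1 hp.2.2.1 ?_
      intro hdvd
      apply hp.2.2.2
      rw [hH]
      simp only [map_mul]
      exact hdvd.mul_right _)
  rw [hK] at hsum
  have hN0 : (0 : ℝ) < N := by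
    rw [← hK]
    exact_mod_cast Module.finrank_pos
  have hs' : ∀ j, 0 ≤ 1 - (s j : ℝ) / N ∧ 1 - (s j : ℝ) / N ≤ 1 := by
    intro j
    have h1 : (s j : ℝ) ≤ N := by exact_mod_cast hsN j
    have h2 : (s j : ℝ) / N ≤ 1 := by rw [div_le_one hN0]; exact h1
    have h3 : 0 ≤ (s j : ℝ) / N := by positivity
    constructor <;> linarith
  have hj : ∀ j, (1 - 3 * θ) * Real.log B - Real.log (c j) ≤
      ∑ p ∈ good (eval x (F j)) (eval x (H j)), Real.log p := by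
    intro j
    refine le_trans ?_ (log_good (ha j))
    obtain ⟨-, h1, h2⟩ := hcon j
    have h3 := h1 (ha j)
    have h4 := h2 (ha j)
    have hrd : (0 : ℝ) < rd (eval x (F j)).natAbs := by exact_mod_cast rd_pos _
    have e1 : (1 - θ) * Real.log B ≤ Real.log (rd (eval x (F j)).natAbs) := by
      rw [← Real.log_rpow hBpos]
      exact Real.log_le_log (by positivity) h3.le
    have e2 : Real.log (rd (Int.gcd (eval x (F j)) (eval x (H j)))) ≤ θ * Real.log B := by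
      rw [← Real.log_rpow hBpos]
      exact Real.log_le_log (by exact_mod_cast rd_pos _) h4
    have e3 : Real.log ((eval x (F j)).natAbs : ℝ) ≤ Real.log (c j) + Real.log B := by
      have h5 : ((eval x (F j)).natAbs : ℝ) ≤ c j * (B : ℝ) ^ 1 := by
        exact_mod_cast hc j B hB x hx
      have h6 : (0 : ℝ) < c j := by exact_mod_cast hc1 j
      have h7 : (0 : ℝ) < ((eval x (F j)).natAbs : ℝ) := by
        exact_mod_cast Int.natAbs_pos.mpr (ha j)
      refine (Real.log_le_log h7 h5).trans (le_of_eq ?_)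
      rw [pow_one, Real.log_mul h6.ne' (by positivity)]
    linarith
  have htot : (∑ j, (1 - (s j : ℝ) / N)) * Real.log B - 3 * θ * q * Real.log B -
      ∑ j, Real.log (c j) ≤ ∑ j, (1 - (s j : ℝ) / N) *
        ∑ p ∈ good (eval x (F j)) (eval x (H j)), Real.log p := by
    have h1 : ∀ j, (1 - (s j : ℝ) / N) * Real.log B - 3 * θ * Real.log B -
        Real.log (c j) ≤ (1 - (s j : ℝ) / N) *
          ∑ p ∈ good (eval x (F j)) (eval x (H j)), Real.log p := by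
      intro j
      have h2 := mul_le_mul_of_nonneg_left (hj j) (hs' j).1
      refine le_trans ?_ h2
      have h3 : 0 ≤ Real.log (c j) := Real.log_natCast_nonneg _
      have h4 : 0 ≤ 3 * θ * Real.log B := by positivity
      have h5 := (hs' j).2
      nlinarith
    refine le_trans (le_of_eq ?_) (Finset.sum_le_sum fun j _ => h1 j)
    have key : ∀ (f l : Fin q → ℝ) (t y : ℝ), ∑ j, (f j * y - t * y - l j) =
        (∑ j, f j) * y - t * q * y - ∑ j, l j := by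
      intro f l t y
      rw [Finset.sum_sub_distrib, Finset.sum_sub_distrib, Finset.sum_mul, Finset.sum_const,
        Finset.card_univ, Fintype.card_fin, nsmul_eq_mul]
      ring
    exact (key (fun j => 1 - (s j : ℝ) / N) (fun j => Real.log (c j)) (3 * θ) (Real.log B)).symm
  have h8 : 3 * θ * q ≤ Δ / 4 := by
    rw [hθ]
    have hq : (0 : ℝ) ≤ q := Nat.cast_nonneg q
    rw [← mul_div_assoc, div_mul_eq_mul_div, div_le_div_iff₀ (by positivity) (by norm_num)]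
    nlinarith
  have h9 := hB₀ B hBB
  have h10 : 3 * θ * q * Real.log B ≤ Δ / 4 * Real.log B := mul_le_mul_of_nonneg_right h8 hlogB
  have h12 : (s₀ + 1) * ε * Real.log B ≤ Δ / 4 * Real.log B :=
    mul_le_mul_of_nonneg_right hεS hlogB
  have h11 : (∑ j, (1 - (s j : ℝ) / N)) = κ + Δ := by rw [hΔ]; ring
  rw [h11] at htot
  linarith

end Pool.Agent.W5h37.VT
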