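import Pool.Agent.W5h37.Thin.PowersMain

/-!
# Sparse properties of the points of products of thin sets, and small values of polynomials
-/

set_option autoImplicit false

namespace Pool.Agent.W5h37.VT

open Finset Filter Pool.Agent.W5h37.Thin

/-- A property is thin-sparse for the exponent `θ` if it holds for few of the elements of the
products of thin sets of exponent `θ`. -/
def TSparse (m : ℕ) (θ : ℝ) (P : ℕ → (Fin m → ℕ) → Prop) : Prop :=
  ∃ δ η : ℝ, 0 < δ ∧ 0 < η ∧ ∀ᶠ X : ℕ in atTop, ∀ A : Fin m → Finset ℕ,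
    (∀ i, Spread X θ ((X : ℝ) ^ η) (A i)) → ∃ S : Finset (Fin m → ℕ),
      (S.card : ℝ) ≤ (X : ℝ) ^ (-δ) * ∏ i, ((A i).card : ℝ) ∧
        ∀ a ∈ Fintype.piFinset A, P X a → a ∈ S

lemma spread_mono {X : ℕ} {θ K K' : ℝ} {A : Finset ℕ} (h : Spread X θ K A) (hK : K ≤ K') :
    Spread X θ K' A := by
  refine ⟨h.1, h.2.1, fun c d N hd hN => (h.2.2 c d N hd hN).trans ?_⟩
  have h1 : (0 : ℝ) ≤ A.card := Nat.cast_nonneg _
  have h2 : 0 ≤ ((N : ℝ) / X) ^ θ := by positivity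
  gcongr

lemma mem_range {m X : ℕ} {θ K : ℝ} {A : Fin m → Finset ℕ} (h : ∀ i, Spread X θ K (A i))
    {a : Fin m → ℕ} (ha : a ∈ Fintype.piFinset A) (i : Fin m) : 1 ≤ a i ∧ a i ≤ X :=
  (h i).2.1 _ (Fintype.mem_piFinset.1 ha i)

lemma TSparse.mono {m : ℕ} {θ : ℝ} {P Q : ℕ → (Fin m → ℕ) → Prop} (h : TSparse m θ Q)
    (hPQ : ∀ᶠ X : ℕ in atTop, ∀ a : Fin m → ℕ, (∀ i, 1 ≤ a i ∧ a i ≤ X) → P X a → Q X a) :
    TSparse m θ P := by
  obtain ⟨δ, η, hδ, hη, h⟩ := h
  refine ⟨δ, η, hδ, hη, ?_⟩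
  filter_upwards [h, hPQ] with X hX hX' A hA
  obtain ⟨S, hS, hS'⟩ := hX A hA
  exact ⟨S, hS, fun a ha hP => hS' a ha (hX' a (mem_range hA ha) hP)⟩

lemma TSparse.or {m : ℕ} {θ : ℝ} {P Q : ℕ → (Fin m → ℕ) → Prop} (hP : TSparse m θ P)
    (hQ : TSparse m θ Q) : TSparse m θ (fun X a => P X a ∨ Q X a) := by
  classical
  obtain ⟨δ, η, hδ, hη, h⟩ := hP
  obtain ⟨δ', η', hδ', hη', h'⟩ := hQ
  obtain ⟨r, hr⟩ : ∃ r, r = min δ δ' := ⟨_, rfl⟩
  have hr0 : 0 < r := by rw [hr]; exact lt_min hδ hδ'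
  refine ⟨r / 2, min η η', by positivity, lt_min hη hη', ?_⟩
  filter_upwards [h, h', ev_const 2 (r / 2) (by positivity), eventually_ge_atTop 1] with
    X hX hX' h2 hX1 A hA
  have hX1r : (1 : ℝ) ≤ X := by exact_mod_cast hX1
  have hX0 : (0 : ℝ) < X := by linarith
  obtain ⟨S, hS, hSP⟩ := hX A fun i => spread_mono (hA i)
    (Real.rpow_le_rpow_of_exponent_le hX1r (min_le_left _ _))
  obtain ⟨S', hS', hSP'⟩ := hX' A fun i => spread_mono (hA i)
    (Real.rpow_le_rpow_of_exponent_le hX1r (min_le_right _ _))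
  refine ⟨S ∪ S', ?_, ?_⟩
  · have h1 : ((S ∪ S').card : ℝ) ≤ S.card + S'.card := by
      exact_mod_cast Finset.card_union_le _ _
    have hp : 0 ≤ ∏ i, ((A i).card : ℝ) := Finset.prod_nonneg fun _ _ => Nat.cast_nonneg _
    have e1 : (X : ℝ) ^ (-δ) ≤ (X : ℝ) ^ (-r) :=
      Real.rpow_le_rpow_of_exponent_le hX1r (by rw [hr]; linarith [min_le_left δ δ'])
    have e2 : (X : ℝ) ^ (-δ') ≤ (X : ℝ) ^ (-r) :=
      Real.rpow_le_rpow_of_exponent_le hX1r (by rw [hr]; linarith [min_le_right δ δ'])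
    have e3 : 2 * (X : ℝ) ^ (-r) ≤ (X : ℝ) ^ (-(r / 2)) := by
      calc 2 * (X : ℝ) ^ (-r) ≤ (X : ℝ) ^ (r / 2) * (X : ℝ) ^ (-r) := by gcongr
        _ = (X : ℝ) ^ (-(r / 2)) := by
            rw [← Real.rpow_add hX0]; congr 1; ring
    calc ((S ∪ S').card : ℝ) ≤ S.card + S'.card := h1
      _ ≤ (X : ℝ) ^ (-δ) * ∏ i, ((A i).card : ℝ) + (X : ℝ) ^ (-δ') * ∏ i, ((A i).card : ℝ) :=
          add_le_add hS hS'
      _ ≤ (X : ℝ) ^ (-r) * ∏ i, ((A i).card : ℝ) + (X : ℝ) ^ (-r) * ∏ i, ((A i).card : ℝ) := by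
          gcongr
      _ = (2 * (X : ℝ) ^ (-r)) * ∏ i, ((A i).card : ℝ) := by ring
      _ ≤ _ := by gcongr
  · rintro a ha (h1 | h1)
    · exact Finset.mem_union_left _ (hSP a ha h1)
    · exact Finset.mem_union_right _ (hSP' a ha h1)

lemma TSparse.false (m : ℕ) (θ : ℝ) : TSparse m θ (fun _ _ => False) := by
  refine ⟨1, 1, one_pos, one_pos, Eventually.of_forall fun X A _ => ⟨∅, ?_, ?_⟩⟩
  · have hp : 0 ≤ ∏ i, ((A i).card : ℝ) := Finset.prod_nonneg fun _ _ => Nat.cast_nonneg _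
    rw [Finset.card_empty, Nat.cast_zero]
    positivity
  · intro a _ h
    exact h.elim

lemma TSparse.exists_finset {m : ℕ} {θ : ℝ} {ι : Type*} (s : Finset ι)
    {P : ι → ℕ → (Fin m → ℕ) → Prop} (h : ∀ j ∈ s, TSparse m θ (P j)) :
    TSparse m θ (fun X a => ∃ j ∈ s, P j X a) := by
  classical
  induction s using Finset.induction_on with
  | empty => exact (TSparse.false m θ).mono (Eventually.of_forall (by simp))
  | insert a s _ ih =>
    refine ((h a (Finset.mem_insert_self a s)).or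
      (ih fun j hj => h j (Finset.mem_insert_of_mem hj))).mono (Eventually.of_forall ?_)
    rintro X x - ⟨j, hj, hjx⟩
    rcases Finset.mem_insert.mp hj with rfl | hj
    · exact Or.inl hjx
    · exact Or.inr ⟨j, hj, hjx⟩

lemma TSparse.exists_fin {m q : ℕ} {θ : ℝ} {P : Fin q → ℕ → (Fin m → ℕ) → Prop}
    (h : ∀ j, TSparse m θ (P j)) : TSparse m θ (fun X a => ∃ j, P j X a) :=
  (TSparse.exists_finset Finset.univ fun j _ => h j).mono (Eventually.of_forall
    fun _ _ _ ⟨j, hj⟩ => ⟨j, Finset.mem_univ j, hj⟩)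

lemma TSparse.cons {m : ℕ} {θ : ℝ} {P : ℕ → (Fin m → ℕ) → Prop} (h : TSparse m θ P) :
    TSparse (m + 1) θ (fun X a => P X (fun i => a i.succ)) := by
  classical
  obtain ⟨δ, η, hδ, hη, h⟩ := h
  refine ⟨δ, η, hδ, hη, ?_⟩
  filter_upwards [h] with X hX A hA
  obtain ⟨S, hS, hSP⟩ := hX (fun i => A i.succ) fun i => hA i.succ
  refine ⟨(A 0 ×ˢ S).image fun z => (Fin.cons z.1 z.2 : Fin (m + 1) → ℕ), ?_, ?_⟩
  · have h1 : (((A 0 ×ˢ S).image fun z => (Fin.cons z.1 z.2 : Fin (m + 1) → ℕ)).card : ℝ) ≤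
        (A 0).card * S.card := by
      have := Finset.card_image_le (s := A 0 ×ˢ S)
        (f := fun z => (Fin.cons z.1 z.2 : Fin (m + 1) → ℕ))
      rw [Finset.card_product] at this
      exact_mod_cast this
    refine h1.trans ?_
    rw [Fin.prod_univ_succ]
    calc ((A 0).card : ℝ) * S.card ≤ (A 0).card * ((X : ℝ) ^ (-δ) * ∏ i : Fin m,
        ((A i.succ).card : ℝ)) := by gcongr
      _ = _ := by ring
  · intro a ha hP
    rw [Finset.mem_image]
    refine ⟨(a 0, fun i => a i.succ), ?_, ?_⟩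
    · rw [Finset.mem_product]
      rw [Fintype.mem_piFinset] at ha
      refine ⟨ha 0, hSP _ ?_ hP⟩
      rw [Fintype.mem_piFinset]
      exact fun i => ha i.succ
    · exact Fin.cons_self_tail a

/-- An absolute value with the property that small balls contain few elements of thin sets. -/
structure Val where
  ν : ℤ → ℝ
  σ : ℝ
  nonneg : ∀ x, 0 ≤ ν x
  map_mul : ∀ x y, ν (x * y) = ν x * ν y
  sub_le : ∀ x y, ν (x - y) ≤ ν x + ν y
  pos : ∀ x, x ≠ 0 → 0 < ν x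
  ball : ∀ (θ ε : ℝ), 0 < θ → 0 < ε → ε ≤ 1 → ∃ C : ℝ, 0 < C ∧ ∀ᶠ X : ℕ in atTop,
    ∀ K : ℝ, 0 ≤ K → ∀ A : Finset ℕ, Spread X θ K A → ∀ z : ℤ, ∀ S ⊆ A,
      (∀ t ∈ S, ν ((t : ℤ) - z) ≤ (X : ℝ) ^ (σ - ε)) →
        (S.card : ℝ) ≤ K * A.card * (C * (X : ℝ) ^ (-ε)) ^ θ

/-- the elements at which a polynomial is small lie in few balls -/
lemma cover (v : Val) : ∀ (e : ℕ) (P : Polynomial ℤ), P.natDegree ≤ e → ∀ M ρ : ℝ, 0 < ρ →
    2 ^ e * M < v.ν (P.coeff e) * ρ ^ e → ∀ T : Finset ℤ, (∀ t ∈ T, v.ν (P.eval t) ≤ M) →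
    ∃ Z : Finset ℤ, Z.card ≤ e ∧ ∀ t ∈ T, ∃ z ∈ Z, v.ν (t - z) ≤ ρ := by
  classical
  intro e
  induction e with
  | zero =>
    intro P hP M ρ _ hM T hT
    refine ⟨∅, by simp, fun t ht => ?_⟩
    exfalso
    have h1 := hT t ht
    rw [Polynomial.eq_C_of_natDegree_le_zero hP, Polynomial.eval_C] at h1
    simp only [pow_zero, one_mul, mul_one] at hM
    linarith
  | succ e ih =>
    intro P hP M ρ hρ hM T hT
    rcases T.eq_empty_or_nonempty with rfl | ⟨t₀, ht₀⟩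
    · exact ⟨∅, by simp, by simp⟩
    obtain ⟨Q, hQ⟩ : (Polynomial.X - Polynomial.C t₀) ∣ P - Polynomial.C (P.eval t₀) := by
      rw [Polynomial.dvd_iff_isRoot]
      simp
    have hQdeg : Q.natDegree ≤ e := by
      by_cases hQ0 : Q = 0
      · rw [hQ0]; simp
      · have h1 : ((Polynomial.X - Polynomial.C t₀) * Q).natDegree = 1 + Q.natDegree := by
          rw [Polynomial.natDegree_mul (Polynomial.X_sub_C_ne_zero t₀) hQ0,
            Polynomial.natDegree_X_sub_C]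
        have h2 : (P - Polynomial.C (P.eval t₀)).natDegree ≤ e + 1 := by
          refine (Polynomial.natDegree_sub_le _ _).trans ?_
          simp only [Polynomial.natDegree_C, max_le_iff, zero_le, and_true]
          exact hP
        rw [hQ, h1] at h2
        omega
    have hQc : Q.coeff e = P.coeff (e + 1) := by
      have h1 : (P - Polynomial.C (P.eval t₀)).coeff (e + 1) = P.coeff (e + 1) := by
        rw [Polynomial.coeff_sub, Polynomial.coeff_C_of_ne_zero (Nat.succ_ne_zero e), sub_zero]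
      rw [← h1, hQ, sub_mul, Polynomial.coeff_sub, Polynomial.coeff_X_mul,
        Polynomial.coeff_C_mul, Polynomial.coeff_eq_zero_of_natDegree_lt (by omega : Q.natDegree < e + 1)]
      ring
    have hev : ∀ t : ℤ, P.eval t - P.eval t₀ = (t - t₀) * Q.eval t := by
      intro t
      have := congrArg (Polynomial.eval t) hQ
      simpa using this
    obtain ⟨Z, hZ, hZT⟩ := ih Q hQdeg (2 * M / ρ) ρ hρ (by
      rw [hQc]
      have h1 : (2 : ℝ) ^ e * (2 * M / ρ) = 2 ^ (e + 1) * M / ρ := by rw [pow_succ]; ring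
      rw [h1, div_lt_iff₀ hρ]
      calc (2 : ℝ) ^ (e + 1) * M < v.ν (P.coeff (e + 1)) * ρ ^ (e + 1) := hM
        _ = _ := by ring) (T.filter fun t => ρ < v.ν (t - t₀)) (by
      intro t ht
      rw [Finset.mem_filter] at ht
      have h1 : v.ν ((t - t₀) * Q.eval t) ≤ 2 * M := by
        rw [← hev t]
        have := v.sub_le (P.eval t) (P.eval t₀)
        have := hT t ht.1
        have := hT t₀ ht₀
        linarith
      rw [v.map_mul] at h1
      rw [le_div_iff₀ hρ]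
      have := v.nonneg (Q.eval t)
      nlinarith [ht.2])
    refine ⟨insert t₀ Z, (Finset.card_insert_le _ _).trans (by omega), fun t ht => ?_⟩
    by_cases h : ρ < v.ν (t - t₀)
    · obtain ⟨z, hz, hzt⟩ := hZT t (Finset.mem_filter.2 ⟨ht, h⟩)
      exact ⟨z, Finset.mem_insert_of_mem hz, hzt⟩
    · exact ⟨t₀, Finset.mem_insert_self _ _, not_lt.1 h⟩

/-- the number of the elements of a thin set at which a polynomial is small -/
lemma fibre_val (v : Val) {X : ℕ} {θ K C ε₂ : ℝ} {A : Finset ℕ}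
    (hball : ∀ z : ℤ, ∀ S ⊆ A, (∀ t ∈ S, v.ν ((t : ℤ) - z) ≤ (X : ℝ) ^ (v.σ - ε₂)) →
        (S.card : ℝ) ≤ K * A.card * (C * (X : ℝ) ^ (-ε₂)) ^ θ) (hX : 1 ≤ X)
    (e : ℕ) (P : Polynomial ℤ) (hP : P.natDegree ≤ e) (M : ℝ)
    (hM : 2 ^ e * M < v.ν (P.coeff e) * ((X : ℝ) ^ (v.σ - ε₂)) ^ e) (S : Finset ℕ) (hS : S ⊆ A)
    (hSM : ∀ t ∈ S, v.ν (P.eval (t : ℤ)) ≤ M)
    (h0 : 0 ≤ K * A.card * (C * (X : ℝ) ^ (-ε₂)) ^ θ) :
    (S.card : ℝ) ≤ e * (K * A.card * (C * (X : ℝ) ^ (-ε₂)) ^ θ) := by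
  classical
  have hX0 : (0 : ℝ) < X := by exact_mod_cast hX
  obtain ⟨Z, hZ, hZT⟩ := cover v e P hP M _ (Real.rpow_pos_of_pos hX0 _) hM
    (S.image (fun t : ℕ => (t : ℤ))) (by
      intro t ht
      obtain ⟨s, hs, rfl⟩ := Finset.mem_image.1 ht
      exact hSM s hs)
  have hsub : S ⊆ Z.biUnion fun z => S.filter fun t : ℕ => v.ν ((t : ℤ) - z) ≤ (X : ℝ) ^ (v.σ - ε₂) := by
    intro t ht
    obtain ⟨z, hz, hzt⟩ := hZT t (Finset.mem_image_of_mem _ ht)
    exact Finset.mem_biUnion.2 ⟨z, hz, Finset.mem_filter.2 ⟨ht, hzt⟩⟩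
  have h1 : (S.card : ℝ) ≤ ∑ z ∈ Z,
      ((S.filter fun t : ℕ => v.ν ((t : ℤ) - z) ≤ (X : ℝ) ^ (v.σ - ε₂)).card : ℝ) := by
    exact_mod_cast (Finset.card_le_card hsub).trans Finset.card_biUnion_le
  refine h1.trans ((Finset.sum_le_card_nsmul _ _ _ fun z _ => hball z _
    ((Finset.filter_subset _ _).trans hS) fun t ht => (Finset.mem_filter.1 ht).2).trans ?_)
  rw [nsmul_eq_mul]
  refine mul_le_mul_of_nonneg_right ?_ h0
  exact_mod_cast hZ

open MvPolynomial in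
/-- **The values of a polynomial at the points of products of thin sets are seldom small.** -/
theorem val_sparse (v : Val) (θ : ℝ) (hθ : 0 < θ) : ∀ (m : ℕ) (G : MvPolynomial (Fin m) ℤ),
    G ≠ 0 → ∀ d : ℕ, (v.σ = 0 ∨ G.IsHomogeneous d) → ∀ ε : ℝ, 0 < ε → ε ≤ 1 →
      TSparse m θ (fun X a => v.ν (eval (fun i => (a i : ℤ)) G) ≤ (X : ℝ) ^ (d * v.σ - ε)) := by
  classical
  intro m
  induction m with
  | zero =>
    intro G hG d hd ε hε _
    obtain ⟨c, hc⟩ : ∃ c, G = C c := ⟨_, eq_C_of_isEmpty G⟩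
    have hc0 : c ≠ 0 := by
      rintro rfl
      exact hG (by rw [hc, C_0])
    have hds : (d : ℝ) * v.σ = 0 := by
      rcases hd with h | h
      · rw [h, mul_zero]
      · rw [hc] at h
        have h1 : d = 0 := IsHomogeneous.inj_right h (isHomogeneous_C _ c) (by rwa [Ne, C_eq_zero])
        rw [h1, Nat.cast_zero, zero_mul]
    refine (TSparse.false 0 θ).mono ?_
    have h1 : Tendsto (fun X : ℕ => (X : ℝ) ^ (-ε)) atTop (nhds 0) :=
      (tendsto_rpow_neg_atTop hε).comp tendsto_natCast_atTop_atTop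
    filter_upwards [h1.eventually_lt_const (v.pos c hc0)] with X hX a _ h2
    rw [hc, eval_C, hds, zero_sub] at h2
    linarith
  | succ m ih =>
    intro G hG d hd ε hε hε1
    set f := finSuccEquiv ℤ m G with hf
    have hf0 : f ≠ 0 := by
      rw [hf, Ne, EmbeddingLike.map_eq_zero_iff]
      exact hG
    set e := f.natDegree with he
    set L := f.coeff e with hL
    have hL0 : L ≠ 0 := by
      rw [hL, he]
      exact Polynomial.leadingCoeff_ne_zero.2 hf0
    have hLd : v.σ = 0 ∨ (e ≤ d ∧ L.IsHomogeneous (d - e)) := by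
      rcases hd with h | h
      · exact Or.inl h
      · right
        have hed : e ≤ d := by
          rw [he, hf, natDegree_finSuccEquiv]
          exact (degreeOf_le_totalDegree G 0).trans h.totalDegree_le
        exact ⟨hed, h.finSuccEquiv_coeff_isHomogeneous e (d - e) (by omega)⟩
    obtain ⟨ε₂, hε₂⟩ : ∃ ε₂, ε₂ = ε / (4 * (e + 1)) := ⟨_, rfl⟩
    have hε₂0 : 0 < ε₂ := by rw [hε₂]; positivity
    have heε : e * ε₂ ≤ ε / 4 := by
      rw [hε₂, mul_div_assoc', div_le_div_iff₀ (by positivity) (by norm_num)]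
      nlinarith [Nat.cast_nonneg (α := ℝ) e]
    have hε₂1 : ε₂ ≤ 1 := by
      rw [hε₂, div_le_one (by positivity)]
      nlinarith [Nat.cast_nonneg (α := ℝ) e]
    have ih' := (ih L hL0 (d - e) (hLd.imp id fun h => h.2) (ε / 4) (by positivity)
      (by linarith)).cons
    -- the exponents
    have hexp : (((d - e : ℕ) : ℝ)) * v.σ + e * v.σ = d * v.σ := by
      rcases hLd with h | h
      · rw [h]; ring
      · rw [← add_mul]
        congr 1
        have := h.1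
        push_cast [Nat.cast_sub this]
        ring
    obtain ⟨C, hC0, hball⟩ := v.ball θ ε₂ hθ hε₂0 hε₂1
    obtain ⟨κ, hκ⟩ : ∃ κ, κ = ε₂ * θ / 4 := ⟨_, rfl⟩
    have hκ0 : 0 < κ := by rw [hκ]; positivity
    have hmain : TSparse (m + 1) θ (fun X a =>
        (X : ℝ) ^ (((d - e : ℕ) : ℝ) * v.σ - ε / 4) < v.ν (eval (fun i => (a (Fin.succ i) : ℤ)) L) ∧
        v.ν (eval (fun i => (a i : ℤ)) G) ≤ (X : ℝ) ^ (d * v.σ - ε)) := by
      refine ⟨κ, κ, hκ0, hκ0, ?_⟩
      filter_upwards [hball, eventually_ge_atTop 1, ev_const (2 ^ e) (ε / 2) (by positivity),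
        ev_const (e * C ^ θ) κ hκ0] with X hX hX1 h2e hXC A hA
      have hX1r : (1 : ℝ) ≤ X := by exact_mod_cast hX1
      have hX0 : (0 : ℝ) < X := by linarith
      refine ⟨(Fintype.piFinset A).filter fun a =>
        (X : ℝ) ^ (((d - e : ℕ) : ℝ) * v.σ - ε / 4) < v.ν (eval (fun i => (a (Fin.succ i) : ℤ)) L) ∧
        v.ν (eval (fun i => (a i : ℤ)) G) ≤ (X : ℝ) ^ (d * v.σ - ε), ?_,
        fun a ha h => Finset.mem_filter.2 ⟨ha, h⟩⟩
      refine fibre_count A 0 _ (Finset.filter_subset _ _) _ ?_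
      intro b
      set T := (A 0).filter fun x => Function.update b 0 x ∈ (Fintype.piFinset A).filter fun a =>
        (X : ℝ) ^ (((d - e : ℕ) : ℝ) * v.σ - ε / 4) < v.ν (eval (fun i => (a (Fin.succ i) : ℤ)) L) ∧
        v.ν (eval (fun i => (a i : ℤ)) G) ≤ (X : ℝ) ^ (d * v.σ - ε) with hT
      have hA0 : (0 : ℝ) < (A 0).card := (hA 0).card_pos
      rcases T.eq_empty_or_nonempty with h0 | ⟨x₀, hx₀⟩
      · rw [h0, Finset.card_empty, Nat.cast_zero]
        positivity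
      have htail : ∀ x : ℕ, (fun i : Fin m => ((Function.update b 0 x (Fin.succ i) : ℕ) : ℤ)) =
          fun i => (b i.succ : ℤ) := by
        intro x
        funext i
        rw [Function.update_of_ne (Fin.succ_ne_zero i)]
      have hcons : ∀ x : ℕ, (fun i : Fin (m + 1) => ((Function.update b 0 x i : ℕ) : ℤ)) =
          Fin.cons (x : ℤ) fun i => (b i.succ : ℤ) := by
        intro x
        funext i
        refine Fin.cases ?_ (fun j => ?_) i
        · simp
        · simp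
      set P : Polynomial ℤ := Polynomial.map (eval fun i => (b (Fin.succ i) : ℤ)) f with hP
      have hPe : ∀ x : ℕ, eval (fun i : Fin (m + 1) => ((Function.update b 0 x i : ℕ) : ℤ)) G =
          P.eval (x : ℤ) := by
        intro x
        rw [hcons x, eval_eq_eval_mv_eval', hP]
      have hPd : P.natDegree ≤ e := Polynomial.natDegree_map_le
      have hPc : P.coeff e = eval (fun i => (b (Fin.succ i) : ℤ)) L := by
        rw [hP, Polynomial.coeff_map, hL]
      have hTA : T ⊆ A 0 := Finset.filter_subset _ _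
      have hx₁ := (Finset.mem_filter.1 (Finset.mem_filter.1 hx₀).2).2.1
      rw [htail] at hx₁
      have hq0 : 0 ≤ (X : ℝ) ^ κ * (A 0).card * (C * (X : ℝ) ^ (-ε₂)) ^ θ := by positivity
      have hfin := fibre_val v (K := (X : ℝ) ^ κ) (C := C) (ε₂ := ε₂) (θ := θ)
        (fun z S hS h => hX _ (by positivity) (A 0) (hA 0) z S hS h) hX1 e P hPd
        ((X : ℝ) ^ (d * v.σ - ε)) (by
          rw [hPc]
          have e1 : ((X : ℝ) ^ (v.σ - ε₂)) ^ e = (X : ℝ) ^ (e * v.σ - e * ε₂) := by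
            rw [← Real.rpow_natCast, ← Real.rpow_mul hX0.le]; congr 1; ring
          rw [e1]
          calc (2 : ℝ) ^ e * (X : ℝ) ^ (d * v.σ - ε) ≤
              (X : ℝ) ^ (ε / 2) * (X : ℝ) ^ (d * v.σ - ε) := by gcongr
            _ = (X : ℝ) ^ (d * v.σ - ε / 2) := by
                rw [← Real.rpow_add hX0]; congr 1; ring
            _ ≤ (X : ℝ) ^ ((((d - e : ℕ) : ℝ) * v.σ - ε / 4) + (e * v.σ - e * ε₂)) := by
                refine Real.rpow_le_rpow_of_exponent_le hX1r ?_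
                rw [← hexp]
                linarith
            _ = (X : ℝ) ^ (((d - e : ℕ) : ℝ) * v.σ - ε / 4) * (X : ℝ) ^ (e * v.σ - e * ε₂) :=
                Real.rpow_add hX0 _ _
            _ < _ := mul_lt_mul_of_pos_right hx₁ (Real.rpow_pos_of_pos hX0 _)) T hTA (by
          intro t ht
          have h1 := (Finset.mem_filter.1 (Finset.mem_filter.1 ht).2).2.2
          rwa [hPe] at h1) hq0
      refine hfin.trans ?_
      have e2 : (C * (X : ℝ) ^ (-ε₂)) ^ θ = C ^ θ * (X : ℝ) ^ (-(ε₂ * θ)) := by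
        rw [Real.mul_rpow hC0.le (by positivity), ← Real.rpow_mul hX0.le]
        congr 2
        ring
      rw [e2]
      calc (e : ℝ) * ((X : ℝ) ^ κ * (A 0).card * (C ^ θ * (X : ℝ) ^ (-(ε₂ * θ)))) =
          (e * C ^ θ) * ((X : ℝ) ^ κ * (X : ℝ) ^ (-(ε₂ * θ))) * (A 0).card := by ring
        _ ≤ (X : ℝ) ^ κ * ((X : ℝ) ^ κ * (X : ℝ) ^ (-(ε₂ * θ))) * (A 0).card := by gcongr
        _ = (X : ℝ) ^ (κ + κ - ε₂ * θ) * (A 0).card := by
            rw [← Real.rpow_add hX0, ← Real.rpow_add hX0]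
            congr 2
            ring
        _ ≤ (X : ℝ) ^ (-κ) * (A 0).card := by
            refine mul_le_mul_of_nonneg_right (Real.rpow_le_rpow_of_exponent_le hX1r ?_) hA0.le
            have : 4 * κ = ε₂ * θ := by rw [hκ]; ring
            linarith
    refine (ih'.or hmain).mono (Eventually.of_forall fun X a _ h => ?_)
    by_cases h1 : v.ν (eval (fun i => (a (Fin.succ i) : ℤ)) L) ≤
        (X : ℝ) ^ (((d - e : ℕ) : ℝ) * v.σ - ε / 4)
    · exact Or.inl h1
    · exact Or.inr ⟨not_le.1 h1, h⟩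

end Pool.Agent.W5h37.VT
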