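import Pool.Agent.W5h37.VT.Vals

/-!
# Uniformity: the values of all forms of bounded degree with small coefficients
-/

set_option autoImplicit false

namespace Pool.Agent.W5h37.VT

open Finset Filter Pool.Agent.W5h37.Thin

/-- absolute values with uniform estimates -/
structure UVal extends Val where
  lower : ∀ x : ℤ, x ≠ 0 → 1 / |(x : ℝ)| ≤ ν x
  uball : ∀ (X : ℕ) (θ ε : ℝ), 1 ≤ X → 0 < θ → 0 < ε → ε ≤ 1 →
    ∀ K : ℝ, 0 ≤ K → ∀ A : Finset ℕ, Spread X θ K A → ∀ z : ℤ, ∀ S ⊆ A,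
      (∀ t ∈ S, ν ((t : ℤ) - z) ≤ (X : ℝ) ^ (σ - ε)) →
        (S.card : ℝ) ≤ K * A.card * (3 * (X : ℝ) ^ (-ε)) ^ θ

lemma arch_ball (X : ℕ) (θ ε : ℝ) (hX : 1 ≤ X) (hθ : 0 < θ) (hε1 : ε ≤ 1)
    (K : ℝ) (hK : 0 ≤ K) (A : Finset ℕ) (hA : Spread X θ K A) (z : ℤ) (S : Finset ℕ) (hS : S ⊆ A)
    (hSz : ∀ t ∈ S, |(((t : ℤ) - z : ℤ) : ℝ)| ≤ (X : ℝ) ^ (1 - ε)) :
    (S.card : ℝ) ≤ K * A.card * (3 * (X : ℝ) ^ (-ε)) ^ θ := by
  have hX1 : (1 : ℝ) ≤ X := by exact_mod_cast hX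
  have hX0 : (0 : ℝ) < X := by linarith
  have hA0 := hA.card_pos
  have hone : 1 ≤ (X : ℝ) ^ (1 - ε) := Real.one_le_rpow hX1 (by linarith)
  have h1 := count hA S hS 1 ⌊2 * (X : ℝ) ^ (1 - ε)⌋₊ le_rfl (by
    intro a ha a' ha' hle
    refine ⟨one_dvd _, Nat.le_floor ?_⟩
    have e1 := hSz a ha
    have e2 := hSz a' ha'
    rw [Nat.cast_sub hle]
    push_cast at e1 e2
    have e3 := (abs_le.1 e1).1
    have e4 := (abs_le.1 e2).2
    linarith)
  refine h1.trans ?_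
  refine mul_le_mul_of_nonneg_left ?_ (mul_nonneg hK hA0.le)
  refine Real.rpow_le_rpow (by positivity) ?_ hθ.le
  rw [div_le_iff₀ hX0, Nat.div_one]
  push_cast
  have e5 : (⌊2 * (X : ℝ) ^ (1 - ε)⌋₊ : ℝ) ≤ 2 * (X : ℝ) ^ (1 - ε) :=
    Nat.floor_le (by positivity)
  have e6 : 3 * (X : ℝ) ^ (-ε) * X = 3 * (X : ℝ) ^ (1 - ε) := by
    rw [mul_assoc, show (1 : ℝ) - ε = -ε + 1 by ring, Real.rpow_add hX0, Real.rpow_one]
  rw [e6]
  linarith

lemma padic_ball (p : ℕ) (hp : p.Prime) (X : ℕ) (θ ε : ℝ) (hX : 1 ≤ X) (hθ : 0 < θ)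
    (hε1 : ε ≤ 1) (K : ℝ) (hK : 0 ≤ K) (A : Finset ℕ) (hA : Spread X θ K A) (z : ℤ)
    (S : Finset ℕ) (hS : S ⊆ A)
    (hSz : ∀ t ∈ S, ((padicNorm p (((t : ℤ) - z : ℤ) : ℚ) : ℚ) : ℝ) ≤ (X : ℝ) ^ (0 - ε)) :
    (S.card : ℝ) ≤ K * A.card * (3 * (X : ℝ) ^ (-ε)) ^ θ := by
  have _ := Fact.mk hp
  have hX1 : (1 : ℝ) ≤ X := by exact_mod_cast hX
  have hX0 : (0 : ℝ) < X := by linarith
  have hA0 := hA.card_pos
  have hex : ∃ f : ℕ, (X : ℝ) ^ ε ≤ ((p ^ f : ℕ) : ℝ) := by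
    obtain ⟨f, hf⟩ := pow_unbounded_of_one_lt ((X : ℝ) ^ ε)
      (show (1 : ℝ) < p by exact_mod_cast hp.one_lt)
    exact ⟨f, by push_cast; exact hf.le⟩
  classical
  set f := Nat.find hex with hf
  have hfs := Nat.find_spec hex
  rw [← hf] at hfs
  have hpf : (0 : ℝ) < ((p ^ f : ℕ) : ℝ) := by exact_mod_cast pow_pos hp.pos f
  have hmod : ∀ t ∈ S, ((p ^ f : ℕ) : ℤ) ∣ (t : ℤ) - z := by
    intro t ht
    rcases eq_or_ne ((t : ℤ) - z) 0 with h0 | h0
    · rw [h0]; exact dvd_zero _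
    have h1 := hSz t ht
    rw [zero_sub] at h1
    have h2 : padicNorm p (((t : ℤ) - z : ℤ) : ℚ) =
        (p : ℚ) ^ (-(padicValInt p ((t : ℤ) - z) : ℤ)) := by
      rw [padicNorm.eq_zpow_of_nonzero (by exact_mod_cast h0), padicValRat.of_int]
    rw [h2] at h1
    have hp0 : (0 : ℝ) < p := by exact_mod_cast hp.pos
    have h3 : (X : ℝ) ^ ε ≤ ((p ^ padicValInt p ((t : ℤ) - z) : ℕ) : ℝ) := by
      push_cast at h1 ⊢
      rw [zpow_neg, zpow_natCast, Real.rpow_neg hX0.le] at h1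
      exact (inv_le_inv₀ (by positivity) (by positivity)).1 h1
    have h4 : f ≤ padicValInt p ((t : ℤ) - z) := Nat.find_min' hex h3
    push_cast
    exact (pow_dvd_pow _ h4).trans (padicValInt_dvd _)
  have h1 := count hA S hS (p ^ f) X (Nat.pos_of_ne_zero (pow_ne_zero _ hp.ne_zero)) (by
    intro a ha a' ha' hle
    have e1 := dvd_sub (hmod a' ha') (hmod a ha)
    have e2 : ((a' : ℤ) - z) - ((a : ℤ) - z) = ((a' - a : ℕ) : ℤ) := by
      push_cast [Nat.cast_sub hle]; ring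
    rw [e2] at e1
    refine ⟨by exact_mod_cast e1, ?_⟩
    have := (hA.2.1 a' (hS ha')).2
    omega)
  refine h1.trans ?_
  refine mul_le_mul_of_nonneg_left ?_ (mul_nonneg hK hA0.le)
  refine Real.rpow_le_rpow (by positivity) ?_ hθ.le
  rw [div_le_iff₀ hX0]
  push_cast
  have e5 : ((X / p ^ f : ℕ) : ℝ) ≤ X * (X : ℝ) ^ (-ε) := by
    refine (Nat.cast_div_le).trans ?_
    rw [Real.rpow_neg hX0.le, ← div_eq_mul_inv]
    gcongr
  have e8 : (X : ℝ) * (X : ℝ) ^ (-ε) = (X : ℝ) ^ (1 - ε) := by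
    rw [sub_eq_add_neg, Real.rpow_add hX0, Real.rpow_one]
  have e6 : (1 : ℝ) ≤ X * (X : ℝ) ^ (-ε) := by
    rw [e8]
    exact Real.one_le_rpow hX1 (by linarith)
  have e7 : ((X / p ^ f : ℕ) : ℝ) + 1 ≤ 3 * (X : ℝ) ^ (-ε) * X := by linarith
  exact_mod_cast e7

/-- the real absolute value -/
noncomputable def uarch : UVal where
  toVal := arch
  lower := fun x hx => by
    have h1 : (1 : ℝ) ≤ |(x : ℝ)| := by exact_mod_cast Int.one_le_abs hx
    change 1 / |(x : ℝ)| ≤ |(x : ℝ)|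
    rw [div_le_iff₀ (by linarith)]
    nlinarith
  uball := fun X θ ε hX hθ _ hε1 K hK A hA z S hS h => arch_ball X θ ε hX hθ hε1 K hK A hA z S hS h

/-- the `p`-adic absolute value -/
noncomputable def upadic (p : ℕ) (hp : p.Prime) : UVal where
  toVal := padic p hp
  lower := fun x hx => by
    have _ := Fact.mk hp
    change 1 / |(x : ℝ)| ≤ ((padicNorm p (x : ℚ) : ℚ) : ℝ)
    rw [padicNorm.eq_zpow_of_nonzero (by exact_mod_cast hx), padicValRat.of_int]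
    push_cast
    rw [zpow_neg, zpow_natCast, one_div]
    have hp0 : (0 : ℝ) < p := by exact_mod_cast hp.pos
    have h1 : (0 : ℝ) < |(x : ℝ)| := abs_pos.2 (by exact_mod_cast hx)
    refine (inv_le_inv₀ h1 (by positivity)).2 ?_
    have h2 : ((p ^ padicValInt p x : ℕ) : ℤ) ≤ |x| := by
      refine Int.le_of_dvd (abs_pos.2 hx) ((dvd_abs _ _).2 ?_)
      push_cast
      exact padicValInt_dvd _
    exact_mod_cast h2
  uball := fun X θ ε hX hθ _ hε1 K hK A hA z S hS h =>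
    padic_ball p hp X θ ε hX hθ hε1 K hK A hA z S hS h

lemma lift_set {m : ℕ} {A : Fin (m + 1) → Finset ℕ} (S : Finset (Fin m → ℕ)) (c : ℝ)
    (hS : (S.card : ℝ) ≤ c * ∏ i : Fin m, ((A i.succ).card : ℝ)) :
    ∃ S' : Finset (Fin (m + 1) → ℕ), (S'.card : ℝ) ≤ c * ∏ i, ((A i).card : ℝ) ∧
      ∀ a ∈ Fintype.piFinset A, (fun i => a (Fin.succ i)) ∈ S → a ∈ S' := by
  classical
  refine ⟨(A 0 ×ˢ S).image fun z => (Fin.cons z.1 z.2 : Fin (m + 1) → ℕ), ?_, ?_⟩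
  · have h1 : (((A 0 ×ˢ S).image fun z => (Fin.cons z.1 z.2 : Fin (m + 1) → ℕ)).card : ℝ) ≤
        (A 0).card * S.card := by
      have := Finset.card_image_le (s := A 0 ×ˢ S)
        (f := fun z => (Fin.cons z.1 z.2 : Fin (m + 1) → ℕ))
      rw [Finset.card_product] at this
      exact_mod_cast this
    refine h1.trans ?_
    rw [Fin.prod_univ_succ]
    calc ((A 0).card : ℝ) * S.card ≤ (A 0).card * (c * ∏ i : Fin m,
        ((A i.succ).card : ℝ)) := by gcongr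
      _ = _ := by ring
  · intro a ha hP
    rw [Finset.mem_image]
    refine ⟨(a 0, fun i => a i.succ), ?_, ?_⟩
    · rw [Finset.mem_product]
      rw [Fintype.mem_piFinset] at ha
      exact ⟨ha 0, hP⟩
    · exact Fin.cons_self_tail a

lemma union_arith {X a b P u v μ : ℝ} (hX : 1 ≤ X) (hP : 0 ≤ P) (h2 : 2 ≤ X ^ (μ / 2))
    (ha : a ≤ X ^ (-u) * P) (hb : b ≤ X ^ (-v) * P) (hu : μ ≤ u) (hv : μ ≤ v) :
    a + b ≤ X ^ (-(μ / 2)) * P := by
  have hX0 : 0 < X := by linarith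
  have e1 : X ^ (-u) ≤ X ^ (-μ) := Real.rpow_le_rpow_of_exponent_le hX (by linarith)
  have e2 : X ^ (-v) ≤ X ^ (-μ) := Real.rpow_le_rpow_of_exponent_le hX (by linarith)
  have e3 : 2 * X ^ (-μ) ≤ X ^ (-(μ / 2)) := by
    calc 2 * X ^ (-μ) ≤ X ^ (μ / 2) * X ^ (-μ) := by gcongr
      _ = X ^ (-(μ / 2)) := by
          rw [← Real.rpow_add hX0]; congr 1; ring
  calc a + b ≤ X ^ (-u) * P + X ^ (-v) * P := add_le_add ha hb
    _ ≤ X ^ (-μ) * P + X ^ (-μ) * P := by gcongr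
    _ = (2 * X ^ (-μ)) * P := by ring
    _ ≤ _ := by gcongr

open MvPolynomial in
/-- **Uniform form of `val_sparse`.** -/
theorem val_uniform (θ : ℝ) (hθ : 0 < θ) (d : ℕ) : ∀ (m : ℕ) (ε : ℝ), 0 < ε → ε ≤ 1 →
    ∃ δ η : ℝ, 0 < δ ∧ 0 < η ∧ ∀ᶠ X : ℕ in atTop, ∀ A : Fin m → Finset ℕ,
      (∀ i, Spread X θ ((X : ℝ) ^ η) (A i)) → ∀ (v : UVal) (G : MvPolynomial (Fin m) ℤ),
      G ≠ 0 → G.totalDegree ≤ d → (∀ s, |((G.coeff s : ℤ) : ℝ)| ≤ (X : ℝ) ^ η) →
      ∀ d' : ℕ, (v.σ = 0 ∨ G.IsHomogeneous d') → ∃ S : Finset (Fin m → ℕ),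
        (S.card : ℝ) ≤ (X : ℝ) ^ (-δ) * ∏ i, ((A i).card : ℝ) ∧
        ∀ a ∈ Fintype.piFinset A,
          v.ν (eval (fun i => (a i : ℤ)) G) ≤ (X : ℝ) ^ (d' * v.σ - ε) → a ∈ S := by
  classical
  intro m
  induction m with
  | zero =>
    intro ε hε _
    refine ⟨1, ε / 2, one_pos, by positivity, ?_⟩
    filter_upwards [eventually_ge_atTop 1, ev_const 2 (ε / 2) (by positivity)] with X hX h2 A _ v G
      hG _ hGX d' hd
    have hX1 : (1 : ℝ) ≤ X := by exact_mod_cast hX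
    have hX0 : (0 : ℝ) < X := by linarith
    obtain ⟨c, hc⟩ : ∃ c, G = C c := ⟨_, eq_C_of_isEmpty G⟩
    have hc0 : c ≠ 0 := by
      rintro rfl
      exact hG (by rw [hc, C_0])
    have hds : (d' : ℝ) * v.σ = 0 := by
      rcases hd with h | h
      · rw [h, mul_zero]
      · rw [hc] at h
        have h1 : d' = 0 := IsHomogeneous.inj_right h (isHomogeneous_C _ c) (by rwa [Ne, C_eq_zero])
        rw [h1, Nat.cast_zero, zero_mul]
    refine ⟨∅, ?_, ?_⟩
    · have hp : 0 ≤ ∏ i, ((A i).card : ℝ) := Finset.prod_nonneg fun _ _ => Nat.cast_nonneg _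
      rw [Finset.card_empty, Nat.cast_zero]
      positivity
    · intro a _ h
      exfalso
      rw [hc, eval_C, hds, zero_sub] at h
      have h3 := v.lower c hc0
      have h4 : |(c : ℝ)| ≤ (X : ℝ) ^ (ε / 2) := by
        have := hGX 0
        rwa [hc, coeff_C, if_pos rfl] at this
      have h5 : (0 : ℝ) < |(c : ℝ)| := abs_pos.2 (by exact_mod_cast hc0)
      have h6 : (X : ℝ) ^ (-ε) < 1 / |(c : ℝ)| := by
        rw [lt_div_iff₀ h5]
        calc (X : ℝ) ^ (-ε) * |(c : ℝ)| ≤ (X : ℝ) ^ (-ε) * (X : ℝ) ^ (ε / 2) := by gcongr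
          _ = ((X : ℝ) ^ (ε / 2))⁻¹ := by
              rw [← Real.rpow_add hX0, ← Real.rpow_neg hX0.le]; congr 1; ring
          _ < 1 := inv_lt_one_of_one_lt₀ (by linarith)
      linarith
  | succ m ih =>
    intro ε hε hε1
    obtain ⟨δ₁, η₁, hδ₁, hη₁, hih⟩ := ih (ε / 4) (by positivity) (by linarith)
    obtain ⟨ε₂, hε₂⟩ : ∃ ε₂, ε₂ = ε / (4 * (d + 1)) := ⟨_, rfl⟩
    have hd0 : (0 : ℝ) ≤ d := Nat.cast_nonneg d
    have hε₂0 : 0 < ε₂ := by rw [hε₂]; positivity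
    have hdε : d * ε₂ ≤ ε / 4 := by
      rw [hε₂, mul_div_assoc', div_le_div_iff₀ (by positivity) (by norm_num)]
      nlinarith
    have hε₂1 : ε₂ ≤ 1 := by
      rw [hε₂, div_le_one (by positivity)]
      nlinarith
    obtain ⟨κ, hκ⟩ : ∃ κ, κ = ε₂ * θ / 4 := ⟨_, rfl⟩
    have hκ0 : 0 < κ := by rw [hκ]; positivity
    obtain ⟨μ, hμ⟩ : ∃ μ, μ = min δ₁ κ := ⟨_, rfl⟩
    have hμ0 : 0 < μ := by rw [hμ]; exact lt_min hδ₁ hκ0
    have hμδ : μ ≤ δ₁ := by rw [hμ]; exact min_le_left _ _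
    have hμκ : μ ≤ κ := by rw [hμ]; exact min_le_right _ _
    refine ⟨μ / 2, min η₁ κ, by positivity, lt_min hη₁ hκ0, ?_⟩
    filter_upwards [hih, eventually_ge_atTop 1, ev_const (2 ^ d) (ε / 2) (by positivity),
      ev_const (d * 3 ^ θ) κ hκ0, ev_const 2 (μ / 2) (by positivity)] with X hX hX1 h2e hXC h2 A hA
      v G hG hGd hGX d' hd
    have hX1r : (1 : ℝ) ≤ X := by exact_mod_cast hX1
    have hX0 : (0 : ℝ) < X := by linarith
    have hη₁' : (X : ℝ) ^ (min η₁ κ) ≤ (X : ℝ) ^ η₁ :=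
      Real.rpow_le_rpow_of_exponent_le hX1r (min_le_left _ _)
    have hκ' : (X : ℝ) ^ (min η₁ κ) ≤ (X : ℝ) ^ κ :=
      Real.rpow_le_rpow_of_exponent_le hX1r (min_le_right _ _)
    set f := finSuccEquiv ℤ m G with hf
    have hf0 : f ≠ 0 := by
      rw [hf, Ne, EmbeddingLike.map_eq_zero_iff]
      exact hG
    set e := f.natDegree with he
    set L := f.coeff e with hL
    have hL0 : L ≠ 0 := by
      rw [hL, he]
      exact Polynomial.leadingCoeff_ne_zero.2 hf0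
    have hed0 : e ≤ d := by
      rw [he, hf, natDegree_finSuccEquiv]
      exact (degreeOf_le_totalDegree G 0).trans hGd
    have hedr : (e : ℝ) ≤ d := by exact_mod_cast hed0
    have hLdeg : L.totalDegree ≤ d := by
      have := totalDegree_coeff_finSuccEquiv_add_le G e (by rw [← hf, ← hL]; exact hL0)
      rw [← hf, ← hL] at this
      omega
    have hLX : ∀ s, |((L.coeff s : ℤ) : ℝ)| ≤ (X : ℝ) ^ η₁ := by
      intro s
      have : L.coeff s = G.coeff (Finsupp.cons e s) := by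
        rw [hL, hf, finSuccEquiv_coeff_coeff]
      rw [this]
      exact (hGX _).trans hη₁'
    have hLd : v.σ = 0 ∨ (e ≤ d' ∧ L.IsHomogeneous (d' - e)) := by
      rcases hd with h | h
      · exact Or.inl h
      · right
        have hed : e ≤ d' := by
          rw [he, hf, natDegree_finSuccEquiv]
          exact (degreeOf_le_totalDegree G 0).trans h.totalDegree_le
        exact ⟨hed, h.finSuccEquiv_coeff_isHomogeneous e (d' - e) (by omega)⟩
    -- the exponents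
    have hexp : (((d' - e : ℕ) : ℝ)) * v.σ + e * v.σ = d' * v.σ := by
      rcases hLd with h | h
      · rw [h]; ring
      · rw [← add_mul]
        congr 1
        have := h.1
        push_cast [Nat.cast_sub this]
        ring
    obtain ⟨S₀, hS₀, hS₀'⟩ := hX (fun i => A i.succ)
      (fun i => spread_mono (hA i.succ) hη₁') v L hL0 hLdeg hLX (d' - e) (hLd.imp id fun h => h.2)
    obtain ⟨S₁, hS₁, hS₁'⟩ := lift_set S₀ _ hS₀
    set S₂ := (Fintype.piFinset A).filter fun a =>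
      (X : ℝ) ^ (((d' - e : ℕ) : ℝ) * v.σ - ε / 4) < v.ν (eval (fun i => (a (Fin.succ i) : ℤ)) L) ∧
      v.ν (eval (fun i => (a i : ℤ)) G) ≤ (X : ℝ) ^ (d' * v.σ - ε) with hS₂
    have hprod : 0 ≤ ∏ i, ((A i).card : ℝ) := Finset.prod_nonneg fun _ _ => Nat.cast_nonneg _
    have hS₂c : (S₂.card : ℝ) ≤ (X : ℝ) ^ (-κ) * ∏ i, ((A i).card : ℝ) := by
      refine fibre_count A 0 _ (Finset.filter_subset _ _) _ ?_
      intro b
      set T := (A 0).filter fun x => Function.update b 0 x ∈ S₂ with hT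
      have hA0 : (0 : ℝ) < (A 0).card := (hA 0).card_pos
      rcases T.eq_empty_or_nonempty with h0 | ⟨x₀, hx₀⟩
      · rw [h0, Finset.card_empty, Nat.cast_zero]
        positivity
      have htail : ∀ x : ℕ, (fun i : Fin m => ((Function.update b 0 x (Fin.succ i) : ℕ) : ℤ)) =
          fun i => (b i.succ : ℤ) := by
        intro x
        funext i
        rw [Function.update_of_ne (Fin.succ_ne_zero i)]
      have hcons : ∀ x : ℕ, (fun i : Fin (m + 1) => ((Function.update b 0 x i : ℕ) : ℤ)) =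
          Fin.cons (x : ℤ) fun i => (b i.succ : ℤ) := by
        intro x
        funext i
        refine Fin.cases ?_ (fun j => ?_) i
        · simp
        · simp
      set P : Polynomial ℤ := Polynomial.map (eval fun i => (b (Fin.succ i) : ℤ)) f with hP
      have hPe : ∀ x : ℕ, eval (fun i : Fin (m + 1) => ((Function.update b 0 x i : ℕ) : ℤ)) G =
          P.eval (x : ℤ) := by
        intro x
        rw [hcons x, eval_eq_eval_mv_eval', hP]
      have hPd : P.natDegree ≤ e := Polynomial.natDegree_map_le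
      have hPc : P.coeff e = eval (fun i => (b (Fin.succ i) : ℤ)) L := by
        rw [hP, Polynomial.coeff_map, hL]
      have hTA : T ⊆ A 0 := Finset.filter_subset _ _
      have hx₁ := (Finset.mem_filter.1 (Finset.mem_filter.1 hx₀).2).2.1
      rw [htail] at hx₁
      have hq0 : 0 ≤ (X : ℝ) ^ κ * (A 0).card * (3 * (X : ℝ) ^ (-ε₂)) ^ θ := by positivity
      have hfin := fibre_val v.toVal (K := (X : ℝ) ^ κ) (C := 3) (ε₂ := ε₂) (θ := θ)
        (fun z S hS h => v.uball X θ ε₂ hX1 hθ hε₂0 hε₂1 _ (by positivity) (A 0)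
          (spread_mono (hA 0) hκ') z S hS h) hX1 e P hPd
        ((X : ℝ) ^ (d' * v.σ - ε)) (by
          rw [hPc]
          have e1 : ((X : ℝ) ^ (v.σ - ε₂)) ^ e = (X : ℝ) ^ (e * v.σ - e * ε₂) := by
            rw [← Real.rpow_natCast, ← Real.rpow_mul hX0.le]; congr 1; ring
          rw [e1]
          calc (2 : ℝ) ^ e * (X : ℝ) ^ (d' * v.σ - ε) ≤
              (X : ℝ) ^ (ε / 2) * (X : ℝ) ^ (d' * v.σ - ε) := by
                have : (2 : ℝ) ^ e ≤ 2 ^ d := pow_le_pow_right₀ (by norm_num) hed0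
                gcongr
                linarith
            _ = (X : ℝ) ^ (d' * v.σ - ε / 2) := by
                rw [← Real.rpow_add hX0]; congr 1; ring
            _ ≤ (X : ℝ) ^ ((((d' - e : ℕ) : ℝ) * v.σ - ε / 4) + (e * v.σ - e * ε₂)) := by
                refine Real.rpow_le_rpow_of_exponent_le hX1r ?_
                rw [← hexp]
                have : e * ε₂ ≤ d * ε₂ := by gcongr
                linarith
            _ = (X : ℝ) ^ (((d' - e : ℕ) : ℝ) * v.σ - ε / 4) * (X : ℝ) ^ (e * v.σ - e * ε₂) :=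
                Real.rpow_add hX0 _ _
            _ < _ := mul_lt_mul_of_pos_right hx₁ (Real.rpow_pos_of_pos hX0 _)) T hTA (by
          intro t ht
          have h1 := (Finset.mem_filter.1 (Finset.mem_filter.1 ht).2).2.2
          rwa [hPe] at h1) hq0
      refine hfin.trans ?_
      have e2 : (3 * (X : ℝ) ^ (-ε₂)) ^ θ = 3 ^ θ * (X : ℝ) ^ (-(ε₂ * θ)) := by
        rw [Real.mul_rpow (by norm_num) (by positivity), ← Real.rpow_mul hX0.le]
        congr 2
        ring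
      rw [e2]
      calc (e : ℝ) * ((X : ℝ) ^ κ * (A 0).card * (3 ^ θ * (X : ℝ) ^ (-(ε₂ * θ)))) =
          (e * 3 ^ θ) * ((X : ℝ) ^ κ * (X : ℝ) ^ (-(ε₂ * θ))) * (A 0).card := by ring
        _ ≤ (d * 3 ^ θ) * ((X : ℝ) ^ κ * (X : ℝ) ^ (-(ε₂ * θ))) * (A 0).card := by gcongr
        _ ≤ (X : ℝ) ^ κ * ((X : ℝ) ^ κ * (X : ℝ) ^ (-(ε₂ * θ))) * (A 0).card := by gcongr
        _ = (X : ℝ) ^ (κ + κ - ε₂ * θ) * (A 0).card := by
            rw [← Real.rpow_add hX0, ← Real.rpow_add hX0]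
            congr 2
            ring
        _ ≤ (X : ℝ) ^ (-κ) * (A 0).card := by
            refine mul_le_mul_of_nonneg_right (Real.rpow_le_rpow_of_exponent_le hX1r ?_) hA0.le
            have : 4 * κ = ε₂ * θ := by rw [hκ]; ring
            linarith
    refine ⟨S₁ ∪ S₂, ?_, ?_⟩
    · have h1 : ((S₁ ∪ S₂).card : ℝ) ≤ S₁.card + S₂.card := by
        exact_mod_cast Finset.card_union_le _ _
      exact h1.trans (union_arith hX1r hprod h2 hS₁ hS₂c hμδ hμκ)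
    · intro a ha h
      by_cases h1 : v.ν (eval (fun i => (a (Fin.succ i) : ℤ)) L) ≤
          (X : ℝ) ^ (((d' - e : ℕ) : ℝ) * v.σ - ε / 4)
      · refine Finset.mem_union_left _ (hS₁' a ha (hS₀' _ ?_ h1))
        rw [Fintype.mem_piFinset] at ha ⊢
        exact fun i => ha i.succ
      · exact Finset.mem_union_right _ (Finset.mem_filter.2 ⟨ha, not_le.1 h1, h⟩)

end Pool.Agent.W5h37.VT
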