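import Pool.Agent.W5h37.VT.Sparse

/-!
# The real and the `p`-adic absolute values
-/

set_option autoImplicit false

namespace Pool.Agent.W5h37.VT

open Finset Filter Pool.Agent.W5h37.Thin

/-- the real absolute value -/
noncomputable def arch : Val where
  ν := fun x => |(x : ℝ)|
  σ := 1
  nonneg := fun _ => abs_nonneg _
  map_mul := fun x y => by push_cast; exact abs_mul _ _
  sub_le := fun x y => by push_cast; exact abs_sub _ _
  pos := fun x hx => abs_pos.2 (by exact_mod_cast hx)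
  ball := by
    intro θ ε hθ hε hε1
    refine ⟨3, by norm_num, ?_⟩
    filter_upwards [eventually_ge_atTop 1] with X hX K hK A hA z S hS hSz
    have hX1 : (1 : ℝ) ≤ X := by exact_mod_cast hX
    have hX0 : (0 : ℝ) < X := by linarith
    have hA0 := hA.card_pos
    have hone : 1 ≤ (X : ℝ) ^ (1 - ε) := Real.one_le_rpow hX1 (by linarith)
    have h1 := count hA S hS 1 ⌊2 * (X : ℝ) ^ (1 - ε)⌋₊ le_rfl (by
      intro a ha a' ha' hle
      refine ⟨one_dvd _, Nat.le_floor ?_⟩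
      have e1 := hSz a ha
      have e2 := hSz a' ha'
      rw [Nat.cast_sub hle]
      push_cast at e1 e2
      have e3 := (abs_le.1 e1).1
      have e4 := (abs_le.1 e2).2
      linarith)
    refine h1.trans ?_
    refine mul_le_mul_of_nonneg_left ?_ (mul_nonneg hK hA0.le)
    refine Real.rpow_le_rpow (by positivity) ?_ hθ.le
    rw [div_le_iff₀ hX0, Nat.div_one]
    push_cast
    have e5 : (⌊2 * (X : ℝ) ^ (1 - ε)⌋₊ : ℝ) ≤ 2 * (X : ℝ) ^ (1 - ε) :=
      Nat.floor_le (by positivity)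
    have e6 : 3 * (X : ℝ) ^ (-ε) * X = 3 * (X : ℝ) ^ (1 - ε) := by
      rw [mul_assoc, show (1 : ℝ) - ε = -ε + 1 by ring, Real.rpow_add hX0, Real.rpow_one]
    rw [e6]
    linarith

/-- the `p`-adic absolute value -/
noncomputable def padic (p : ℕ) (hp : p.Prime) : Val where
  ν := fun x => ((padicNorm p (x : ℚ) : ℚ) : ℝ)
  σ := 0
  nonneg := fun x => by exact_mod_cast padicNorm.nonneg _
  map_mul := fun x y => by
    haveI := Fact.mk hp
    push_cast
    rw [padicNorm.mul]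
    push_cast
    rfl
  sub_le := fun x y => by
    haveI := Fact.mk hp
    have h1 : padicNorm p ((x - y : ℤ) : ℚ) ≤ padicNorm p (x : ℚ) + padicNorm p (y : ℚ) := by
      push_cast
      refine (padicNorm.sub).trans ?_
      exact max_le_add_of_nonneg (padicNorm.nonneg _) (padicNorm.nonneg _)
    exact_mod_cast h1
  pos := fun x hx => by
    haveI := Fact.mk hp
    have h1 : padicNorm p (x : ℚ) ≠ 0 := padicNorm.nonzero (by exact_mod_cast hx)
    have h2 : 0 < padicNorm p (x : ℚ) := lt_of_le_of_ne (padicNorm.nonneg _) (Ne.symm h1)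
    exact_mod_cast h2
  ball := by
    intro θ ε hθ hε hε1
    haveI := Fact.mk hp
    refine ⟨2, by norm_num, ?_⟩
    filter_upwards [eventually_ge_atTop 1] with X hX K hK A hA z S hS hSz
    have hX1 : (1 : ℝ) ≤ X := by exact_mod_cast hX
    have hX0 : (0 : ℝ) < X := by linarith
    have hA0 := hA.card_pos
    have hex : ∃ f : ℕ, (X : ℝ) ^ ε ≤ ((p ^ f : ℕ) : ℝ) := by
      obtain ⟨f, hf⟩ := pow_unbounded_of_one_lt ((X : ℝ) ^ ε)
        (show (1 : ℝ) < p by exact_mod_cast hp.one_lt)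
      exact ⟨f, by push_cast; exact hf.le⟩
    classical
    set f := Nat.find hex with hf
    have hfs := Nat.find_spec hex
    rw [← hf] at hfs
    have hpf : (0 : ℝ) < ((p ^ f : ℕ) : ℝ) := by exact_mod_cast pow_pos hp.pos f
    have hmod : ∀ t ∈ S, ((p ^ f : ℕ) : ℤ) ∣ (t : ℤ) - z := by
      intro t ht
      rcases eq_or_ne ((t : ℤ) - z) 0 with h0 | h0
      · rw [h0]; exact dvd_zero _
      have h1 := hSz t ht
      rw [zero_sub] at h1
      have h2 : padicNorm p (((t : ℤ) - z : ℤ) : ℚ) =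
          (p : ℚ) ^ (-(padicValInt p ((t : ℤ) - z) : ℤ)) := by
        rw [padicNorm.eq_zpow_of_nonzero (by exact_mod_cast h0), padicValRat.of_int]
      rw [h2] at h1
      have hp0 : (0 : ℝ) < p := by exact_mod_cast hp.pos
      have h3 : (X : ℝ) ^ ε ≤ ((p ^ padicValInt p ((t : ℤ) - z) : ℕ) : ℝ) := by
        push_cast at h1 ⊢
        rw [zpow_neg, zpow_natCast, Real.rpow_neg hX0.le] at h1
        exact (inv_le_inv₀ (by positivity) (by positivity)).1 h1
      have h4 : f ≤ padicValInt p ((t : ℤ) - z) := Nat.find_min' hex h3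
      push_cast
      exact (pow_dvd_pow _ h4).trans (padicValInt_dvd _)
    have h1 := count hA S hS (p ^ f) X (Nat.pos_of_ne_zero (pow_ne_zero _ hp.ne_zero)) (by
      intro a ha a' ha' hle
      have e1 := dvd_sub (hmod a' ha') (hmod a ha)
      have e2 : ((a' : ℤ) - z) - ((a : ℤ) - z) = ((a' - a : ℕ) : ℤ) := by
        push_cast [Nat.cast_sub hle]; ring
      rw [e2] at e1
      refine ⟨by exact_mod_cast e1, ?_⟩
      have := (hA.2.1 a' (hS ha')).2
      omega)
    refine h1.trans ?_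
    refine mul_le_mul_of_nonneg_left ?_ (mul_nonneg hK hA0.le)
    refine Real.rpow_le_rpow (by positivity) ?_ hθ.le
    rw [div_le_iff₀ hX0]
    push_cast
    have e5 : ((X / p ^ f : ℕ) : ℝ) ≤ X * (X : ℝ) ^ (-ε) := by
      refine (Nat.cast_div_le).trans ?_
      rw [Real.rpow_neg hX0.le, ← div_eq_mul_inv]
      gcongr
    have e6 : (1 : ℝ) ≤ X * (X : ℝ) ^ (-ε) := by
      have : (X : ℝ) * (X : ℝ) ^ (-ε) = (X : ℝ) ^ (1 - ε) := by
        rw [sub_eq_add_neg, Real.rpow_add hX0, Real.rpow_one]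
      rw [this]
      exact Real.one_le_rpow hX1 (by linarith)
    have e7 : ((X / p ^ f : ℕ) : ℝ) + 1 ≤ 2 * (X : ℝ) ^ (-ε) * X := by linarith
    exact_mod_cast e7

open MvPolynomial

/-- a form is seldom small -/
theorem small_sparse {m d : ℕ} {θ ε : ℝ} (hθ : 0 < θ) (G : MvPolynomial (Fin m) ℤ) (hG : G ≠ 0)
    (hd : G.IsHomogeneous d) (hε : 0 < ε) (hε1 : ε ≤ 1) :
    TSparse m θ (fun X a => ((eval (fun i => (a i : ℤ)) G).natAbs : ℝ) ≤
      (X : ℝ) ^ ((d : ℝ) - ε)) := by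
  refine (val_sparse arch θ hθ m G hG d (Or.inr hd) ε hε hε1).mono (Eventually.of_forall ?_)
  intro X a _ h
  rw [Nat.cast_natAbs, Int.cast_abs] at h
  have e1 : (d : ℝ) * arch.σ - ε = d - ε := by
    have : arch.σ = 1 := rfl
    rw [this, mul_one]
  rw [e1]
  exact h

/-- a nonzero polynomial seldom vanishes -/
theorem zero_sparse {m : ℕ} {θ : ℝ} (hθ : 0 < θ) (G : MvPolynomial (Fin m) ℤ) (hG : G ≠ 0) :
    TSparse m θ (fun _ a => eval (fun i => (a i : ℤ)) G = 0) := by
  refine (val_sparse (padic 2 Nat.prime_two) θ hθ m G hG 0 (Or.inl rfl) 1 one_pos le_rfl).mono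
    (Eventually.of_forall ?_)
  intro X a _ h
  rw [h]
  have e1 : (padic 2 Nat.prime_two).ν 0 = 0 := by
    change ((padicNorm 2 ((0 : ℤ) : ℚ) : ℚ) : ℝ) = 0
    simp
  rw [e1]
  positivity

/-- a form is seldom divisible by a large power of `p` -/
theorem padic_sparse {m : ℕ} {θ ε : ℝ} (hθ : 0 < θ) (G : MvPolynomial (Fin m) ℤ) (hG : G ≠ 0)
    (p : ℕ) (hp : p.Prime) (hε : 0 < ε) (hε1 : ε ≤ 1) :
    TSparse m θ (fun X a => eval (fun i => (a i : ℤ)) G ≠ 0 ∧
      (X : ℝ) ^ ε < ((p ^ padicValInt p (eval (fun i => (a i : ℤ)) G) : ℕ) : ℝ)) := by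
  refine (val_sparse (padic p hp) θ hθ m G hG 0 (Or.inl rfl) ε hε hε1).mono ?_
  filter_upwards [eventually_ge_atTop 1] with X hX a _ ⟨h0, h⟩
  haveI := Fact.mk hp
  have hX0 : (0 : ℝ) < X := by exact_mod_cast hX
  have hp0 : (0 : ℝ) < p := by exact_mod_cast hp.pos
  change ((padicNorm p ((eval (fun i => (a i : ℤ)) G : ℤ) : ℚ) : ℚ) : ℝ) ≤
    (X : ℝ) ^ (((0 : ℕ) : ℝ) * (0 : ℝ) - ε)
  rw [padicNorm.eq_zpow_of_nonzero (by exact_mod_cast h0), padicValRat.of_int]
  push_cast at h ⊢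
  rw [zero_mul, zero_sub, zpow_neg, zpow_natCast, Real.rpow_neg hX0.le]
  exact (inv_le_inv₀ (by positivity) (by positivity)).2 h.le

end Pool.Agent.W5h37.VT
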